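import Pool.Agent.Lib.MP_b07157_agCS.Defs

/-!
# Symmetric matrices of rank one
-/

noncomputable section

namespace MPb07157

open MvPolynomial

namespace CS

/-- A symmetric complex matrix of rank one is `λ λ^T`. -/
theorem exists_of_rank_one {n : ℕ} {A : Matrix (Fin n) (Fin n) ℂ} (hA : A.IsSymm)
    (hr : A.rank = 1) : ∃ l : Fin n → ℂ, l ≠ 0 ∧ ∀ i j, A i j = l i * l j := by
  have hr' := hr
  unfold Matrix.rank at hr'
  obtain ⟨⟨v, hvmem⟩, hv0, hv⟩ := finrank_eq_one_iff'.1 hr'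
  have hv0' : v ≠ 0 := fun h => hv0 (Subtype.ext h)
  have hcol : ∀ j, ∃ c : ℂ, ∀ i, A i j = c * v i := by
    intro j
    obtain ⟨c, hc⟩ := hv ⟨A.mulVecLin (Pi.single j 1), LinearMap.mem_range_self _ _⟩
    refine ⟨c, fun i => ?_⟩
    have h1 := congrArg (fun x : LinearMap.range A.mulVecLin => (x : Fin n → ℂ) i) hc
    simp only [SetLike.mk_smul_mk, Pi.smul_apply, smul_eq_mul, Matrix.mulVecLin_apply,
      Matrix.mulVec_single_one, Matrix.col_apply] at h1
    exact h1.symm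
  choose c hc using hcol
  obtain ⟨i₀, hi₀⟩ : ∃ i, v i ≠ 0 := by
    by_contra hcon
    push Not at hcon
    exact hv0' (funext hcon)
  have hsym : ∀ i j, A i j = A j i := fun i j => by
    have := congrFun (congrFun hA j) i
    rw [Matrix.transpose_apply] at this
    exact this
  have hcv : ∀ j, c j = c i₀ / v i₀ * v j := by
    intro j
    have h1 := hsym i₀ j
    rw [hc, hc] at h1
    rw [div_mul_eq_mul_div, eq_div_iff hi₀]
    exact h1
  obtain ⟨s, hs⟩ := IsAlgClosed.exists_pow_nat_eq (c i₀ / v i₀) (n := 2) (by norm_num)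
  have hfin : ∀ i j, A i j = (s * v i) * (s * v j) := by
    intro i j
    rw [hc j i, hcv j, ← hs]
    ring
  refine ⟨fun i => s * v i, ?_, hfin⟩
  intro h0
  have hA0 : A = 0 := by
    ext i j
    have h1 : s * v i = 0 := congrFun h0 i
    rw [hfin, h1, zero_mul]
    rfl
  rw [hA0, Matrix.rank_zero] at hr
  omega

/-- Let `λ ≠ 0` be a linear form on `ℂ⁴` with `λ(p) = 0`, `p ≠ 0`. There is a basis
`b_0, b_1, b_2, b_3 = p` with `λ(b_0) = 1`, `λ(b_1) = λ(b_2) = 0`. -/
theorem exists_basis_of_form {l p : Fin 4 → ℂ} (hl : l ≠ 0) (hp : p ≠ 0)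
    (hlp : ∑ i, l i * p i = 0) : ∃ b : Module.Basis (Fin 4) ℂ (Fin 4 → ℂ), b 3 = p ∧
      ∑ i, l i * b 0 i = 1 ∧ ∑ i, l i * b 1 i = 0 ∧ ∑ i, l i * b 2 i = 0 := by
  obtain ⟨i₀, hi₀⟩ : ∃ i, l i ≠ 0 := by
    by_contra hcon
    push Not at hcon
    exact hl (funext hcon)
  let φ : (Fin 4 → ℂ) →ₗ[ℂ] ℂ := Fintype.linearCombination ℂ l
  have hφ : ∀ x, φ x = ∑ i, l i * x i := by
    intro x
    change Fintype.linearCombination ℂ l x = _
    rw [Fintype.linearCombination_apply]
    exact Finset.sum_congr rfl fun i _ => by rw [smul_eq_mul, mul_comm]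
  set b₀ : Fin 4 → ℂ := Pi.single i₀ (l i₀)⁻¹ with hb₀
  have hb₀1 : φ b₀ = 1 := by
    rw [hφ, hb₀, Finset.sum_eq_single i₀]
    · rw [Pi.single_eq_same, mul_inv_cancel₀ hi₀]
    · intro j _ hj
      rw [Pi.single_eq_of_ne hj, mul_zero]
    · intro h
      exact absurd (Finset.mem_univ _) h
  have hsurj : Function.Surjective φ := by
    intro c
    exact ⟨c • b₀, by rw [map_smul, hb₀1, smul_eq_mul, mul_one]⟩
  have hker : Module.finrank ℂ (LinearMap.ker φ) = 3 := by
    have h1 := LinearMap.finrank_range_add_finrank_ker φ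
    rw [LinearMap.range_eq_top.2 hsurj, finrank_top, Module.finrank_self,
      Module.finrank_fin_fun] at h1
    omega
  have hpk : p ∈ LinearMap.ker φ := by
    rw [LinearMap.mem_ker, hφ]; exact hlp
  let p' : LinearMap.ker φ := ⟨p, hpk⟩
  have hp' : p' ≠ 0 := fun h => hp (congrArg Subtype.val h)
  have h1 : LinearIndependent ℂ (fun _ : Fin 1 => p') :=
    LinearIndependent.of_subsingleton (ι := Fin 1) 0 hp'
  obtain ⟨x, hx⟩ := exists_linearIndependent_cons_of_lt_finrank h1 (by rw [hker]; norm_num)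
  obtain ⟨y, hy⟩ := exists_linearIndependent_cons_of_lt_finrank hx (by rw [hker]; norm_num)
  have hy2 : LinearIndependent ℂ (fun i => ((Fin.cons y (Fin.cons x (fun _ : Fin 1 => p')) :
      Fin 3 → LinearMap.ker φ) i : Fin 4 → ℂ)) :=
    hy.map' (LinearMap.ker φ).subtype (Submodule.ker_subtype _)
  have hz : LinearIndependent ℂ (Fin.cons b₀ (fun i => ((Fin.cons y (Fin.cons x (fun _ : Fin 1 => p')) :
      Fin 3 → LinearMap.ker φ) i : Fin 4 → ℂ)) : Fin 4 → (Fin 4 → ℂ)) := by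
    rw [linearIndependent_finCons]
    refine ⟨hy2, fun hmem => ?_⟩
    have hle : Submodule.span ℂ (Set.range (fun i => ((Fin.cons y (Fin.cons x (fun _ : Fin 1 => p')) :
      Fin 3 → LinearMap.ker φ) i : Fin 4 → ℂ))) ≤ LinearMap.ker φ := by
      rw [Submodule.span_le]
      rintro _ ⟨i, rfl⟩
      exact Subtype.property _
    have h2 := hle hmem
    rw [LinearMap.mem_ker, hb₀1] at h2
    exact one_ne_zero h2
  refine ⟨basisOfLinearIndependentOfCardEqFinrank hz (by simp), ?_, ?_, ?_, ?_⟩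
  · rw [coe_basisOfLinearIndependentOfCardEqFinrank]
    rfl
  · rw [coe_basisOfLinearIndependentOfCardEqFinrank, ← hφ]
    exact hb₀1
  · rw [coe_basisOfLinearIndependentOfCardEqFinrank, ← hφ]
    exact y.2
  · rw [coe_basisOfLinearIndependentOfCardEqFinrank, ← hφ]
    exact x.2

end CS

end MPb07157
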