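import Pool.Agent.Lib.MP_b07157_agCS.Defs
import Pool.Agent.Lib.MP_b07157_agS.SMain
import Pool.Agent.Lib.MP_b07157_agM.IFT

/-!
# Linear changes of coordinates
-/

noncomputable section

namespace MPb07157

open MvPolynomial

namespace CS

variable {n : ℕ}

/-- Substitution of polynomials commutes with the embedding into power series. -/
theorem N1.coe_aeval (a : Fin n → MvPolynomial (Fin n) ℂ) (G : MvPolynomial (Fin n) ℂ) :
    MvPolynomial.aeval (fun i => (a i : MvPowerSeries (Fin n) ℂ)) G =
      ((MvPolynomial.aeval a G : MvPolynomial (Fin n) ℂ) : MvPowerSeries (Fin n) ℂ) := by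
  induction G using MvPolynomial.induction_on with
  | C c =>
    rw [MvPolynomial.aeval_C, MvPolynomial.aeval_C, MvPolynomial.algebraMap_eq,
      MvPolynomial.coe_C]
    rfl
  | add p q hp hq =>
    rw [map_add, map_add, hp, hq, MvPolynomial.coe_add]
  | mul_X p i hp =>
    rw [map_mul, map_mul, hp, MvPolynomial.aeval_X, MvPolynomial.aeval_X, MvPolynomial.coe_mul]

theorem N1.eval_aeval (x : Fin n → ℂ) (a : Fin n → MvPolynomial (Fin n) ℂ)
    (G : MvPolynomial (Fin n) ℂ) :
    eval x (aeval a G) = eval (fun i => eval x (a i)) G := by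
  induction G using MvPolynomial.induction_on with
  | C c => simp
  | add p q hp hq => rw [map_add, map_add, hp, hq, map_add]
  | mul_X p i hp => rw [map_mul, map_mul, hp, aeval_X, map_mul, eval_X]

/-- A change of linear coordinates is a formal change of coordinates: `IFT.exists_equiv` (agM/IFT)
for the linear forms `a i = ∑ j, C (M i j) * X j`, `M` the matrix of `e`, and
`SmcLoc.of_formEquivPow` with `m = 1`; `F = aeval a⁻¹ G` by `MvPolynomial.funext`. -/
theorem LinEq.smcLoc {F G : MvPolynomial (Fin n) ℂ} (h : LinEq F G) (hG : SmcLoc G) :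
    SmcLoc F := by
  classical
  obtain ⟨e, he⟩ := h
  obtain ⟨N, hN⟩ : ∃ N : Matrix (Fin n) (Fin n) ℂ,
      N = LinearMap.toMatrix' (e.symm : (Fin n → ℂ) →ₗ[ℂ] (Fin n → ℂ)) := ⟨_, rfl⟩
  have hNv : ∀ x : Fin n → ℂ, N.mulVec x = e.symm x := by
    intro x
    rw [hN, ← Matrix.toLin'_apply, Matrix.toLin'_toMatrix']
    rfl
  have hNd : N.det ≠ 0 := by
    rw [hN, LinearMap.det_toMatrix']
    exact (LinearEquiv.isUnit_det' e.symm).ne_zero
  obtain ⟨a, ha⟩ : ∃ a : Fin n → MvPolynomial (Fin n) ℂ,
      ∀ i, a i = ∑ j, C (N i j) * X j := ⟨_, fun i => rfl⟩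
  have hev : ∀ x i, eval x (a i) = e.symm x i := by
    intro x i
    rw [ha, ← hNv, map_sum]
    simp only [map_mul, eval_C, eval_X]
    rfl
  have hFG : aeval a G = F := by
    refine MvPolynomial.funext fun x => ?_
    have h1 : eval x (aeval a G) = eval (fun i => eval x (a i)) G := N1.eval_aeval x a G
    rw [h1, show (fun i => eval x (a i)) = e.symm x from _root_.funext fun i => hev x i, ← he,
      LinearEquiv.apply_symm_apply]
  have hc : ∀ i j, MvPowerSeries.coeff (Finsupp.single j 1)
      ((a i : MvPolynomial (Fin n) ℂ) : MvPowerSeries (Fin n) ℂ) = N i j := by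
    intro i j
    rw [MvPolynomial.coeff_coe, ha, coeff_sum]
    rw [Finset.sum_eq_single j]
    · rw [coeff_C_mul, coeff_X, if_pos rfl, mul_one]
    · intro l _ hl
      rw [coeff_C_mul, coeff_X, if_neg, mul_zero]
      intro h1
      exact hl (Finsupp.single_left_injective one_ne_zero h1)
    · intro h1
      exact (h1 (Finset.mem_univ j)).elim
  obtain ⟨E, hE⟩ := IFT.exists_equiv (n := n)
    (a := fun i => ((a i : MvPolynomial (Fin n) ℂ) : MvPowerSeries (Fin n) ℂ)) (by
      intro i
      rw [← MvPowerSeries.coeff_zero_eq_constantCoeff_apply, MvPolynomial.coeff_coe, ha,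
        coeff_sum]
      refine Finset.sum_eq_zero fun j _ => ?_
      rw [coeff_C_mul, coeff_zero_X, mul_zero]) (by
      have : (Matrix.of fun i j => MvPowerSeries.coeff (Finsupp.single j 1)
          ((a i : MvPolynomial (Fin n) ℂ) : MvPowerSeries (Fin n) ℂ)) = N := by
        ext i j
        exact hc i j
      rw [this]
      exact hNd)
  refine SmcLoc.of_formEquivPow one_pos ⟨E, 1, ?_⟩ hG
  rw [hE, N1.coe_aeval, hFG]
  simp

end CS

end MPb07157
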