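import Pool.Agent.Lib.MP_b07157_agCS.Defs

/-!
# Binary cubic forms
-/

noncomputable section

namespace MPb07157

open MvPolynomial

namespace CS

/-- The binary cubic form with the coefficients `c`. -/
def bc (c : Fin 4 → ℂ) (y z : ℂ) : ℂ :=
  c 0 * y ^ 3 + c 1 * (y ^ 2 * z) + c 2 * (y * z ^ 2) + c 3 * z ^ 3

namespace B2

/-- The four normal forms. -/
def Nrm (c : Fin 4 → ℂ) : Prop := ∃ a b g d : ℂ, a * d - b * g ≠ 0 ∧
    ((∀ y z, bc c (a * y + b * z) (g * y + d * z) = y ^ 3 + z ^ 3) ∨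
      (∀ y z, bc c (a * y + b * z) (g * y + d * z) = y ^ 2 * z) ∨
      (∀ y z, bc c (a * y + b * z) (g * y + d * z) = y ^ 3) ∨
      ∀ y z, bc c (a * y + b * z) (g * y + d * z) = 0)

/-- A primitive third root of unity. -/
theorem exists_omega : ∃ w : ℂ, w ^ 2 + w + 1 = 0 := by
  obtain ⟨s, hs⟩ := IsAlgClosed.exists_pow_nat_eq (-3 : ℂ) (n := 2) (by norm_num)
  refine ⟨(-1 + s) / 2, ?_⟩
  linear_combination (1 / 4 : ℂ) * hs

/-- Three different linear factors. -/
theorem three_factors (c : Fin 4 → ℂ) (k r1 r2 : ℂ) (hk : k ≠ 0) (hr : r1 ≠ r2)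
    (hc : ∀ y z, bc c y z = z * k * (y - r1 * z) * (y - r2 * z)) : Nrm c := by
  obtain ⟨w, hw⟩ := exists_omega
  have hr' : r2 - r1 ≠ 0 := sub_ne_zero.2 hr.symm
  obtain ⟨l, hl⟩ := IsAlgClosed.exists_pow_nat_eq (-(r2 - r1) / k) (n := 3) (by norm_num)
  have hl' : k * l ^ 3 = -(r2 - r1) := by
    rw [hl]
    field_simp
  have hw3 : w ^ 3 = 1 := by linear_combination (w - 1) * hw
  have hw0 : w ≠ 0 := by
    rintro rfl
    norm_num at hw
  have hl0 : l ≠ 0 := by
    rintro rfl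
    rw [zero_pow (by norm_num), mul_zero] at hl'
    exact hr' (neg_eq_zero.1 hl'.symm)
  set u : ℂ := l * w / (r2 - r1) with hu
  have hu' : (r2 - r1) * u = l * w := by
    rw [hu]
    field_simp
  have hu0 : u ≠ 0 := div_ne_zero (mul_ne_zero hl0 hw0) hr'
  have hone : u * k * l ^ 2 * w ^ 2 = -1 := by
    apply mul_left_cancel₀ hr'
    linear_combination (k * l ^ 2 * w ^ 2) * hu' + w ^ 3 * hl' - (r2 - r1) * hw3
  refine ⟨-(l * w ^ 2) + r1 * u, -l + r1 * u, u, u, ?_, Or.inl fun y z => ?_⟩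
  · have e : (-(l * w ^ 2) + r1 * u) * u - (-l + r1 * u) * u = u * (l * (1 - w ^ 2)) := by ring
    rw [e]
    refine mul_ne_zero hu0 (mul_ne_zero hl0 ?_)
    intro h
    have h1 : w = -2 := by linear_combination hw + h
    rw [h1] at hw
    norm_num at hw
  · rw [hc]
    have e1 : (-(l * w ^ 2) + r1 * u) * y + (-l + r1 * u) * z - r1 * (u * y + u * z)
        = -(l * w ^ 2 * y + l * z) := by ring
    have e2 : (-(l * w ^ 2) + r1 * u) * y + (-l + r1 * u) * z - r2 * (u * y + u * z)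
        = l * y + l * w ^ 2 * z := by
      linear_combination (-(y + z)) * hu' - l * y * hw - l * z * hw
    rw [e1, e2]
    have e3 : (w ^ 2 * y + z) * (y + w ^ 2 * z) = w ^ 2 * (y ^ 2 - y * z + z ^ 2) := by
      linear_combination (y * z * (w ^ 2 - w + 1)) * hw
    calc (u * y + u * z) * k * -(l * w ^ 2 * y + l * z) * (l * y + l * w ^ 2 * z)
        = -(u * k * l ^ 2) * (y + z) * ((w ^ 2 * y + z) * (y + w ^ 2 * z)) := by ring
      _ = -(u * k * l ^ 2 * w ^ 2) * (y ^ 3 + z ^ 3) := by rw [e3]; ring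
      _ = y ^ 3 + z ^ 3 := by rw [hone]; ring

/-- The case in which `y` does not occur to the third power. -/
theorem of_zero (c : Fin 4 → ℂ) (h0 : c 0 = 0) : Nrm c := by
  by_cases h1 : c 1 = 0
  · by_cases h2 : c 2 = 0
    · by_cases h3 : c 3 = 0
      · refine ⟨1, 0, 0, 1, by norm_num, Or.inr (Or.inr (Or.inr fun y z => ?_))⟩
        simp [bc, h0, h1, h2, h3]
      · obtain ⟨t, ht⟩ := IsAlgClosed.exists_pow_nat_eq ((c 3)⁻¹) (n := 3) (by norm_num)
        have ht0 : t ≠ 0 := by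
          rintro rfl
          rw [zero_pow (by norm_num)] at ht
          exact inv_ne_zero h3 ht.symm
        refine ⟨0, 1, t, 0, by simpa using ht0, Or.inr (Or.inr (Or.inl fun y z => ?_))⟩
        have h4 : c 3 * t ^ 3 = 1 := by rw [ht, mul_inv_cancel₀ h3]
        simp only [bc, h0, h1, h2]
        linear_combination (y ^ 3) * h4
    · refine ⟨-(c 3 * (c 2)⁻¹), (c 2)⁻¹, 1, 0, by simpa using h2,
        Or.inr (Or.inl fun y z => ?_)⟩
      have h4 : c 2 * (c 2)⁻¹ = 1 := mul_inv_cancel₀ h2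
      simp only [bc, h0, h1]
      linear_combination (y ^ 2 * z - c 3 * y ^ 3) * h4
  · obtain ⟨s, hs⟩ := IsAlgClosed.exists_pow_nat_eq (c 2 ^ 2 - 4 * c 1 * c 3) (n := 2)
      (by norm_num)
    have hi : c 1 * (c 1)⁻¹ = 1 := mul_inv_cancel₀ h1
    by_cases hs0 : s = 0
    · subst hs0
      have hdisc : c 2 ^ 2 = 4 * c 1 * c 3 := by linear_combination -hs
      have hform : ∀ y z, bc c y z
          = c 1 * z * (y + c 2 * (c 1)⁻¹ / 2 * z) ^ 2 := by
        intro y z
        simp only [bc, h0]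
        have e3 : c 3 = c 1 * (c 2 * (c 1)⁻¹ / 2) ^ 2 := by
          field_simp
          linear_combination -hdisc
        have e2 : c 2 = 2 * c 1 * (c 2 * (c 1)⁻¹ / 2) := by
          field_simp
        generalize c 2 * (c 1)⁻¹ / 2 = r at *
        rw [e2, e3]
        ring
      refine ⟨1, -(c 2 * (c 1)⁻¹ / 2) * (c 1)⁻¹, 0, (c 1)⁻¹, by simpa using h1,
        Or.inr (Or.inl fun y z => ?_)⟩
      rw [hform]
      generalize c 2 * (c 1)⁻¹ / 2 = r
      linear_combination (y ^ 2 * z) * hi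
    · refine three_factors c (c 1) ((-c 2 + s) / (2 * c 1)) ((-c 2 - s) / (2 * c 1)) h1 ?_ ?_
      · intro h
        apply hs0
        have h2 : -c 2 + s = -c 2 - s := by
          have h3 : (2 : ℂ) * c 1 ≠ 0 := mul_ne_zero two_ne_zero h1
          exact (div_left_inj' h3).1 h
        linear_combination (1 / 2 : ℂ) * h2
      · intro y z
        have e1 : c 2 = -(c 1 * ((-c 2 + s) / (2 * c 1) + (-c 2 - s) / (2 * c 1))) := by
          field_simp
          ring
        have e2 : c 3 = c 1 * ((-c 2 + s) / (2 * c 1) * ((-c 2 - s) / (2 * c 1))) := by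
          field_simp
          linear_combination hs
        generalize (-c 2 + s) / (2 * c 1) = r1 at *
        generalize (-c 2 - s) / (2 * c 1) = r2 at *
        simp only [bc, h0]
        rw [e2]
        linear_combination (y * z ^ 2) * e1

/-- The general case, by a root of the cubic polynomial. -/
theorem all (c : Fin 4 → ℂ) : Nrm c := by
  by_cases h0 : c 0 = 0
  · exact of_zero c h0
  · obtain ⟨r, hr⟩ : ∃ r : ℂ, c 0 * r ^ 3 + c 1 * r ^ 2 + c 2 * r + c 3 = 0 := by
      obtain ⟨r, hr⟩ := IsAlgClosed.exists_root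
        (Polynomial.C (c 0) * Polynomial.X ^ 3 + Polynomial.C (c 1) * Polynomial.X ^ 2
          + Polynomial.C (c 2) * Polynomial.X + Polynomial.C (c 3))
        (by rw [Polynomial.degree_cubic h0]; norm_num)
      refine ⟨r, ?_⟩
      simpa [Polynomial.IsRoot] using hr
    set c' : Fin 4 → ℂ := ![0, 3 * c 0 * r ^ 2 + 2 * c 1 * r + c 2, 3 * c 0 * r + c 1, c 0]
      with hc'
    have key : ∀ y z, bc c (r * y + z) y = bc c' y z := by
      intro y z
      simp only [bc, hc']
      simp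
      linear_combination (y ^ 3) * hr
    obtain ⟨a, b, g, d, hdet, hnf⟩ := of_zero c' rfl
    have key2 : ∀ y z, bc c ((r * a + g) * y + (r * b + d) * z) (a * y + b * z)
        = bc c' (a * y + b * z) (g * y + d * z) := by
      intro y z
      rw [← key]
      congr 1
      ring
    refine ⟨r * a + g, r * b + d, a, b, ?_, ?_⟩
    · intro h
      apply hdet
      linear_combination -h
    · simp only [key2]
      exact hnf

end B2

/-- **Binary cubic forms** up to linear changes of coordinates: `y³ + z³`, `y² z`, `y³`, `0`.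
Proof: a nonzero binary cubic form is a product of three linear forms (`IsAlgClosed`; dehomogenize);
if they are pairwise non-proportional, it is equivalent to `y z (y + z)`, hence to `y³ + z³`
(`y³ + z³ = (y + z)(y + ω z)(y + ω² z)`); if exactly two are proportional, to `y² z`; otherwise to
`y³`. -/
theorem binary_cubic (c : Fin 4 → ℂ) : ∃ a b g d : ℂ, a * d - b * g ≠ 0 ∧
    ((∀ y z, bc c (a * y + b * z) (g * y + d * z) = y ^ 3 + z ^ 3) ∨
      (∀ y z, bc c (a * y + b * z) (g * y + d * z) = y ^ 2 * z) ∨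
      (∀ y z, bc c (a * y + b * z) (g * y + d * z) = y ^ 3) ∨
      ∀ y z, bc c (a * y + b * z) (g * y + d * z) = 0) :=
  B2.all c

/-- **Binary quadratic forms** are diagonalizable. -/
theorem binary_quadratic (q : Fin 3 → ℂ) : ∃ a b g d α β : ℂ, a * d - b * g ≠ 0 ∧
    ∀ y z, q 0 * (a * y + b * z) ^ 2 + q 1 * ((a * y + b * z) * (g * y + d * z)) +
      q 2 * (g * y + d * z) ^ 2 = α * y ^ 2 + β * z ^ 2 := by
  by_cases h0 : q 0 = 0
  · by_cases h2 : q 2 = 0
    · refine ⟨1, 1, 1, -1, q 1, -q 1, by norm_num, fun y z => ?_⟩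
      rw [h0, h2]
      ring
    · refine ⟨1, 0, -(q 1 * (q 2)⁻¹ / 2), 1, -(q 1 ^ 2 * (q 2)⁻¹ / 4), q 2, by norm_num,
        fun y z => ?_⟩
      have h : q 2 * (q 2)⁻¹ = 1 := mul_inv_cancel₀ h2
      rw [h0]
      linear_combination (q 1 ^ 2 * (q 2)⁻¹ / 4 * y ^ 2 - q 1 * y * z) * h
  · refine ⟨1, -(q 1 * (q 0)⁻¹ / 2), 0, 1, q 0, q 2 - q 1 ^ 2 * (q 0)⁻¹ / 4, by norm_num,
      fun y z => ?_⟩
    have h : q 0 * (q 0)⁻¹ = 1 := mul_inv_cancel₀ h0
    linear_combination (q 1 ^ 2 * (q 0)⁻¹ / 4 * z ^ 2 - q 1 * y * z) * h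

end CS

end MPb07157
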