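import Pool.Agent.Lib.MP_b07157_agCS.Main
import Pool.Agent.Lib.MP_b07157_agSE.Deg4
import Pool.Agent.Lib.MP_b07157_agSF.Glob
import Pool.Agent.Lib.MP_b07157_agN1.HomLG

/-!
# Polynomials of degree at most three in four variables
-/

noncomputable section

namespace MPb07157

open MvPolynomial

/-- For homogeneous polynomials the local version implies the global one. -/
theorem SmcLoc.smcGlob_of_hom {n : ℕ} {f : MvPolynomial (Fin n) ℂ} {d : ℕ} (hd : 0 < d)
    (hh : f.IsHomogeneous d) (h : SmcLoc f) : SmcGlob f := fun s hs hp b hb =>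
  (roots_of_form (fun b hb => h s hs ((MN.isPole_Zmot0_iff hd hh).2 hp) b hb)).1 b hb

/-- **The strong monodromy conjecture, global version**, for all cubic forms in four variables. -/
theorem SmcGlob.of_cubic {F : MvPolynomial (Fin 4) ℂ} (hF : F ≠ 0) (hh : F.IsHomogeneous 3) :
    SmcGlob F := (SmcLoc.of_cubic hF hh).smcGlob_of_hom (by norm_num) hh

namespace SE4

theorem isHomogeneous_three {n : ℕ} {F : MvPolynomial (Fin n) ℂ} (hd : F.totalDegree ≤ 3)
    (low : ∀ j < 3, homogeneousComponent j F = 0) : F.IsHomogeneous 3 := by
  have h1 : F = homogeneousComponent 3 F := by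
    conv_lhs => rw [← sum_homogeneousComponent F]
    rcases Nat.lt_or_ge F.totalDegree 3 with h | h
    · rw [Finset.sum_eq_zero fun j hj => low j (by rw [Finset.mem_range] at hj; omega),
        homogeneousComponent_eq_zero 3 F h]
    · have h4 : F.totalDegree = 3 := le_antisymm hd h
      rw [h4, Finset.sum_range_succ, Finset.sum_eq_zero fun j hj => low j (Finset.mem_range.1 hj),
        zero_add]
  rw [h1]
  exact homogeneousComponent_isHomogeneous 3 F

end SE4

/-- **The strong monodromy conjecture, local version**, for the polynomials of degree at most three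
in four variables whose Hessian matrix at the origin does not have rank one. -/
theorem SmcLoc.of_deg3four {f : MvPolynomial (Fin 4) ℂ} (hf : f ≠ 0) (h0 : coeff 0 f = 0)
    (hd : f.totalDegree ≤ 3) (hr : (YG.hessAt f 0).rank ≠ 1) : SmcLoc f := by
  classical
  by_cases h1 : ∃ i, coeff (Finsupp.single i 1) f ≠ 0
  · obtain ⟨i, hi⟩ := h1
    exact SU.smcLoc_smooth h0 hi
  push Not at h1
  by_cases h2 : YG.hessAt f 0 = 0
  · have low : ∀ j < 3, homogeneousComponent j f = 0 := by
      refine SE4.low_of_derivatives h0 (fun i => ?_) fun i j => ?_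
      · rw [coeff_pderiv, zero_add, h1, zero_mul]
      · have h3 := congrFun (congrFun h2 i) j
        unfold YG.hessAt at h3
        rw [Matrix.of_apply] at h3
        have h5 : eval (0 : Fin 4 → ℂ) (pderiv i (pderiv j f)) = 0 := h3
        rw [← constantCoeff_eq, ← h5]
        show _ = eval (fun _ => 0) _
        rw [eval_zero']
    exact SmcLoc.of_cubic hf (SE4.isHomogeneous_three hd low)
  · have h3 := SE3.one_le_rank h2
    refine SU.smcLoc_corank hf h0 ?_
    have h4 : SU.hess f = YG.hessAt f 0 := by
      ext i j
      unfold YG.hessAt SU.hess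
      rw [Matrix.of_apply, Matrix.of_apply, ← constantCoeff_eq]
      show _ = eval (fun _ => 0) _
      rw [eval_zero']
    rw [h4]
    omega

/-- **The strong monodromy conjecture, global version**, for the polynomials of degree at most three
in four variables whose Hessian matrix does not have rank one at any critical zero. -/
theorem SmcGlob.of_deg3four {f : MvPolynomial (Fin 4) ℂ} (hf : f ≠ 0) (hd : f.totalDegree ≤ 3)
    (hr : ∀ p, eval p f = 0 → (∀ i, eval p (pderiv i f) = 0) → (YG.hessAt f p).rank ≠ 1) :
    SmcGlob f := by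
  classical
  by_cases hA : ∃ p, eval p f = 0 ∧ (∀ i, eval p (pderiv i f) = 0) ∧ YG.hessAt f p = 0
  · obtain ⟨p, hp, hc, hH⟩ := hA
    have low : ∀ j < 3, homogeneousComponent j (translate p f) = 0 := by
      refine SE4.low_of_derivatives (by rw [SE3.coeff_zero_tr, hp]) (fun i => ?_) fun i j => ?_
      · rw [pderiv_translate, SE3.coeff_zero_tr, hc]
      · rw [pderiv_translate, pderiv_translate, SE3.coeff_zero_tr]
        exact congrFun (congrFun hH i) j
    exact SE3.smcGlob_of_translate p (SmcGlob.of_cubic (translate_ne_zero hf p)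
      (SE4.isHomogeneous_three ((D5.totalDegree_translate_le p f).trans hd) low))
  · push Not at hA
    have h2 : ∀ p, eval p f = 0 → (∀ i, eval p (pderiv i f) = 0) →
        2 ≤ (YG.hessAt f p).rank := by
      intro p hp hc
      have h3 := SE3.one_le_rank (hA p hp hc)
      have h4 := hr p hp hc
      omega
    by_cases hz : ∃ p, eval p f = 0
    · obtain ⟨p, hp⟩ := hz
      refine SE3.smcGlob_of_translate p (SmcGlob.of_corank (translate_ne_zero hf p)
        (by rw [SE3.coeff_zero_tr, hp]) (T := ∅) Set.finite_empty
        (fun _ hW => absurd hW (Set.notMem_empty _)) fun q hq0 hq1 => Or.inr ?_)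
      rw [SE3.hessAt_translate]
      have h5 := h2 (q + p) (by rw [← D5.eval_translate']; exact hq0)
        (fun i => by rw [← SE3.eval_pderiv_translate]; exact hq1 i)
      omega
    · push Not at hz
      exact SE3.smcGlob_of_ne hf hz

end MPb07157
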