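import Pool.Agent.Lib.MP_b07157_agCS.T0

/-!
# Cubic forms and symmetric trilinear forms, II
-/

noncomputable section

namespace MPb07157

open MvPolynomial

namespace CS

variable {n : ℕ}

private theorem T1_swap₁₂ (t : Fin n → Fin n → Fin n → ℂ) (x y z : Fin n → ℂ) :
    tri t x y z = tri (fun i j k => t j i k) y x z := by
  unfold tri
  rw [Finset.sum_comm]
  refine Finset.sum_congr rfl fun i _ => Finset.sum_congr rfl fun j _ =>
    Finset.sum_congr rfl fun k _ => ?_
  ring

private theorem T1_swap₂₃ (t : Fin n → Fin n → Fin n → ℂ) (x y z : Fin n → ℂ) :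
    tri t x y z = tri (fun i j k => t i k j) x z y := by
  unfold tri
  refine Finset.sum_congr rfl fun i _ => ?_
  rw [Finset.sum_comm]
  refine Finset.sum_congr rfl fun j _ => Finset.sum_congr rfl fun k _ => ?_
  ring

private theorem T1_third (t : Fin n → Fin n → Fin n → ℂ) (x y z : Fin n → ℂ) :
    tri t x y z = ∑ k, z k * ∑ i, ∑ j, t i j k * (x i * y j) := by
  unfold tri
  have h1 : ∀ i, ∑ j, ∑ k, t i j k * (x i * y j * z k) =
      ∑ k, ∑ j, t i j k * (x i * y j * z k) := fun i => Finset.sum_comm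
  simp only [h1]
  rw [Finset.sum_comm]
  refine Finset.sum_congr rfl fun k _ => ?_
  rw [Finset.mul_sum]
  refine Finset.sum_congr rfl fun i _ => ?_
  rw [Finset.mul_sum]
  refine Finset.sum_congr rfl fun j _ => ?_
  ring

theorem mem_Cr_cub {t : Fin n → Fin n → Fin n → ℂ} (ht : Sym t) (p : Fin n → ℂ) :
    p ∈ Cr (cub t) ↔ ∀ z, tri t p p z = 0 := by
  have key : ∀ z, tri t p p z = ∑ k, z k * ∑ i, ∑ j, t k i j * (p i * p j) := by
    intro z
    rw [T1_third]
    refine Finset.sum_congr rfl fun k _ => ?_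
    congr 1
    refine Finset.sum_congr rfl fun i _ => Finset.sum_congr rfl fun j _ => ?_
    rw [ht.2 i j k, ht.1 i k j]
  have hmem : p ∈ Cr (cub t) ↔ ∀ i, ∑ j, ∑ k, t i j k * (p j * p k) = 0 := by
    change (∀ i, eval p (pderiv i (cub t)) = 0) ↔ _
    refine forall_congr' fun i => ?_
    rw [eval_pderiv_cub ht, mul_eq_zero]
    have h3 : (3 : ℂ) ≠ 0 := by norm_num
    simp [h3]
  rw [hmem]
  constructor
  · intro h z
    rw [key]
    refine Finset.sum_eq_zero fun k _ => ?_
    rw [h k, mul_zero]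
  · intro h i
    have h1 := h (Pi.single i 1)
    rw [key, Finset.sum_eq_single i] at h1
    · simpa using h1
    · intro k _ hk
      rw [Pi.single_eq_of_ne hk, zero_mul]
    · intro hi
      exact absurd (Finset.mem_univ i) hi

theorem tri_comm₁₂ {t : Fin n → Fin n → Fin n → ℂ} (ht : Sym t) (x y z : Fin n → ℂ) :
    tri t x y z = tri t y x z := by
  rw [T1_swap₁₂]
  have : (fun i j k => t j i k) = t := by
    funext i j k
    exact (ht.1 i j k).symm
  rw [this]

theorem tri_comm₂₃ {t : Fin n → Fin n → Fin n → ℂ} (ht : Sym t) (x y z : Fin n → ℂ) :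
    tri t x y z = tri t x z y := by
  rw [T1_swap₂₃]
  have : (fun i j k => t i k j) = t := by
    funext i j k
    exact (ht.2 i j k).symm
  rw [this]

theorem tri_add (t : Fin n → Fin n → Fin n → ℂ) (x x' y z : Fin n → ℂ) :
    tri t (x + x') y z = tri t x y z + tri t x' y z := by
  unfold tri
  simp only [← Finset.sum_add_distrib]
  refine Finset.sum_congr rfl fun i _ => Finset.sum_congr rfl fun j _ =>
    Finset.sum_congr rfl fun k _ => ?_
  rw [Pi.add_apply]
  ring

theorem tri_smul (t : Fin n → Fin n → Fin n → ℂ) (a : ℂ) (x y z : Fin n → ℂ) :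
    tri t (a • x) y z = a * tri t x y z := by
  unfold tri
  simp only [Finset.mul_sum]
  refine Finset.sum_congr rfl fun i _ => Finset.sum_congr rfl fun j _ =>
    Finset.sum_congr rfl fun k _ => ?_
  rw [Pi.smul_apply, smul_eq_mul]
  ring

private theorem T1_sum₁ (t : Fin n → Fin n → Fin n → ℂ) (w : Fin n → ℂ)
    (b : Fin n → Fin n → ℂ) (y z : Fin n → ℂ) :
    tri t (∑ a, w a • b a) y z = ∑ a, w a * tri t (b a) y z := by
  let L : (Fin n → ℂ) →ₗ[ℂ] ℂ :=
    { toFun := fun x => tri t x y z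
      map_add' := fun x x' => tri_add t x x' y z
      map_smul' := fun a x => tri_smul t a x y z }
  have h : L (∑ a, w a • b a) = ∑ a, w a * L (b a) := by
    rw [map_sum]
    exact Finset.sum_congr rfl fun a _ => by rw [map_smul, smul_eq_mul]
  exact h

private theorem T1_sum₂ (t : Fin n → Fin n → Fin n → ℂ) (w : Fin n → ℂ)
    (b : Fin n → Fin n → ℂ) (x z : Fin n → ℂ) :
    tri t x (∑ a, w a • b a) z = ∑ a, w a * tri t x (b a) z := by
  rw [T1_swap₁₂, T1_sum₁]
  exact Finset.sum_congr rfl fun a _ => by rw [T1_swap₁₂ t x]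

private theorem T1_sum₃ (t : Fin n → Fin n → Fin n → ℂ) (w : Fin n → ℂ)
    (b : Fin n → Fin n → ℂ) (x y : Fin n → ℂ) :
    tri t x y (∑ a, w a • b a) = ∑ a, w a * tri t x y (b a) := by
  rw [T1_swap₂₃, T1_sum₂]
  exact Finset.sum_congr rfl fun a _ => by rw [T1_swap₂₃ t x y]

/-- In the coordinates of the basis `b`, the cubic form `cub t` has the coefficients
`t(b_i, b_j, b_k)`. The linear map is `w ↦ ∑ w_i b_i` (`Module.Basis.equivFun`). -/
theorem linEq_basis {t : Fin n → Fin n → Fin n → ℂ} (b : Module.Basis (Fin n) ℂ (Fin n → ℂ)) :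
    LinEq (cub t) (cub fun i j k => tri t (b i) (b j) (b k)) := by
  refine ⟨b.equivFun.symm, fun w => ?_⟩
  rw [eval_cub, eval_cub, Module.Basis.equivFun_symm_apply, T1_sum₁]
  conv_rhs => unfold tri
  refine Finset.sum_congr rfl fun i _ => ?_
  rw [T1_sum₂, Finset.mul_sum]
  refine Finset.sum_congr rfl fun j _ => ?_
  rw [T1_sum₃, Finset.mul_sum, Finset.mul_sum]
  refine Finset.sum_congr rfl fun k _ => ?_
  unfold tri
  ring

/-- The coefficients in the coordinates of a basis are symmetric. -/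
theorem sym_basis {t : Fin n → Fin n → Fin n → ℂ} (ht : Sym t)
    (b : Fin n → Fin n → ℂ) : Sym fun i j k => tri t (b i) (b j) (b k) :=
  ⟨fun i j k => tri_comm₁₂ ht (b i) (b j) (b k), fun i j k => tri_comm₂₃ ht (b i) (b j) (b k)⟩

end CS

end MPb07157
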