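import Pool.Agent.Lib.MP_b07157_agCS.Defs

/-!
# Cubic forms and symmetric trilinear forms, I
-/

noncomputable section

namespace MPb07157

open MvPolynomial

namespace CS

variable {n : ℕ}

theorem T0.comm (s t : Fin n) (q : MvPolynomial (Fin n) ℂ) :
    pderiv s (pderiv t q) = pderiv t (pderiv s q) := by
  classical
  ext m
  rw [coeff_pderiv, coeff_pderiv, coeff_pderiv, coeff_pderiv]
  by_cases h : s = t
  · subst h; rfl
  · have h1 : (m + Finsupp.single s 1 : Fin n →₀ ℕ) t = m t := by
      simp [h]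
    have h2 : (m + Finsupp.single t 1 : Fin n →₀ ℕ) s = m s := by
      simp [Ne.symm h]
    rw [h1, h2, add_right_comm]
    ring

/-- Every cubic form is `cub t` for a symmetric `t`. Proof: `3 F = ∑ X_i ∂_i F`
(`IsHomogeneous.sum_X_mul_pderiv`), `2 ∂_i F = ∑ X_j ∂_j ∂_i F`, `∂_j ∂_i F = ∑ X_k ∂_k ∂_j ∂_i F`,
and `∂_k ∂_j ∂_i F` is homogeneous of degree zero, i.e. a constant `C (coeff 0 _)`; so
`t i j k = (1/6) coeff 0 (∂_k ∂_j ∂_i F)`. The partial derivatives commute (`ConeR.pderiv_comm` in
`agSG/ConeR` has a short proof by coefficients; copy it). -/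
theorem exists_cub {F : MvPolynomial (Fin n) ℂ} (hF : F.IsHomogeneous 3) :
    ∃ t, Sym t ∧ F = cub t := by
  refine ⟨fun i j k => coeff 0 (pderiv k (pderiv j (pderiv i F))) / 6, ⟨?_, ?_⟩, ?_⟩
  · intro i j k
    simp only
    rw [T0.comm j i]
  · intro i j k
    simp only
    rw [T0.comm k j]
  · have hconst : ∀ i j k, pderiv k (pderiv j (pderiv i F)) =
        C (coeff 0 (pderiv k (pderiv j (pderiv i F)))) := by
      intro i j k
      have h1 : (pderiv k (pderiv j (pderiv i F))).IsHomogeneous (3 - 1 - 1 - 1) :=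
        hF.pderiv.pderiv.pderiv
      have h2 : (pderiv k (pderiv j (pderiv i F))).totalDegree = 0 :=
        Nat.le_zero.1 h1.totalDegree_le
      exact totalDegree_eq_zero_iff_eq_C.1 h2
    have e1 : ∑ i, X i * pderiv i F = 3 • F := hF.sum_X_mul_pderiv
    have e2 : ∀ i, ∑ j, X j * pderiv j (pderiv i F) = (3 - 1) • pderiv i F := fun i =>
      (hF.pderiv (i := i)).sum_X_mul_pderiv
    have e3 : ∀ i j, ∑ k, X k * pderiv k (pderiv j (pderiv i F)) =
        (3 - 1 - 1) • pderiv j (pderiv i F) := fun i j =>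
      ((hF.pderiv (i := i)).pderiv (i := j)).sum_X_mul_pderiv
    have a1 : ∀ i j, ∑ k, X i * (X j * (X k * pderiv k (pderiv j (pderiv i F)))) =
        X i * (X j * pderiv j (pderiv i F)) := by
      intro i j
      rw [← Finset.mul_sum, ← Finset.mul_sum, e3 i j]
      show X i * (X j * ((1 : ℕ) • pderiv j (pderiv i F))) = _
      rw [one_smul]
    have a2 : ∀ i, ∑ j, X i * (X j * pderiv j (pderiv i F)) = 2 * (X i * pderiv i F) := by
      intro i
      rw [← Finset.mul_sum, e2 i]
      show X i * ((2 : ℕ) • pderiv i F) = _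
      rw [two_smul]
      ring
    have h6 : (C 6 : MvPolynomial (Fin n) ℂ) * F =
        ∑ i, ∑ j, ∑ k, X i * (X j * (X k * pderiv k (pderiv j (pderiv i F)))) := by
      simp only [a1, a2]
      rw [← Finset.mul_sum, e1]
      have e5 : (C 6 : MvPolynomial (Fin n) ℂ) = 6 := map_ofNat C 6
      rw [e5, nsmul_eq_mul]
      push_cast
      ring
    have h7 : F = C (1 / 6) * (C 6 * F) := by
      rw [← mul_assoc, ← C_mul]
      norm_num
    refine h7.trans ?_
    rw [h6, cub, Finset.mul_sum]
    refine Finset.sum_congr rfl fun i _ => ?_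
    rw [Finset.mul_sum]
    refine Finset.sum_congr rfl fun j _ => ?_
    rw [Finset.mul_sum]
    refine Finset.sum_congr rfl fun k _ => ?_
    have e6 : coeff 0 (pderiv k (pderiv j (pderiv i F))) / 6 =
        (1 / 6) * coeff 0 (pderiv k (pderiv j (pderiv i F))) := by ring
    rw [e6, C_mul, ← hconst i j k]
    ring

theorem eval_cub (t : Fin n → Fin n → Fin n → ℂ) (p : Fin n → ℂ) :
    eval p (cub t) = tri t p p p := by
  simp only [cub, tri, map_sum, map_mul, eval_C, eval_X]

theorem T0.eval_single (p : Fin n → ℂ) (i a : Fin n) :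
    eval p (pderiv i (X a)) = if a = i then 1 else 0 := by
  rw [pderiv_X]
  by_cases h : a = i
  · subst h
    simp
  · rw [Pi.single_eq_of_ne h, if_neg h, map_zero]

theorem T0.eval_mono (p : Fin n → ℂ) (i a b c : Fin n) (z : ℂ) :
    eval p (pderiv i (C z * (X a * X b * X c))) =
      (if a = i then z * (p b * p c) else 0) + (if b = i then z * (p a * p c) else 0) +
        (if c = i then z * (p a * p b) else 0) := by
  rw [pderiv_C_mul, pderiv_mul, pderiv_mul]
  simp only [map_mul, map_add, eval_C, eval_X, T0.eval_single]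
  by_cases h1 : a = i <;> by_cases h2 : b = i <;> by_cases h3 : c = i <;>
    simp only [h1, h2, h3, if_true, if_false] <;> ring

theorem T0.sum1 (f : Fin n → Fin n → Fin n → ℂ) (i : Fin n) :
    ∑ a, ∑ b, ∑ c, (if a = i then f a b c else 0) = ∑ b, ∑ c, f i b c := by
  have h : ∀ a, ∑ b, ∑ c, (if a = i then f a b c else 0) =
      if a = i then ∑ b, ∑ c, f a b c else 0 := by
    intro a
    by_cases h : a = i
    · simp only [h, if_true]
    · simp only [h, if_false, Finset.sum_const_zero]
  simp only [h, Finset.sum_ite_eq', Finset.mem_univ, if_true]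

/-- `∂_i (cub t) (p) = 3 t(e_i, p, p)`. -/
theorem eval_pderiv_cub {t : Fin n → Fin n → Fin n → ℂ} (ht : Sym t) (p : Fin n → ℂ) (i : Fin n) :
    eval p (pderiv i (cub t)) = 3 * ∑ j, ∑ k, t i j k * (p j * p k) := by
  simp only [cub, map_sum, T0.eval_mono, Finset.sum_add_distrib]
  have s1 := T0.sum1 (fun a b c => t a b c * (p b * p c)) i
  have s2 : ∑ a, ∑ b, ∑ c, (if b = i then t a b c * (p a * p c) else 0) =
      ∑ b, ∑ c, t i b c * (p b * p c) := by
    rw [Finset.sum_comm, T0.sum1 (fun b a c => t a b c * (p a * p c)) i]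
    refine Finset.sum_congr rfl fun a _ => Finset.sum_congr rfl fun c _ => ?_
    rw [ht.1 a i c]
  have s3 : ∑ a, ∑ b, ∑ c, (if c = i then t a b c * (p a * p b) else 0) =
      ∑ b, ∑ c, t i b c * (p b * p c) := by
    have e : ∀ a, ∑ b, ∑ c, (if c = i then t a b c * (p a * p b) else 0) =
        ∑ b, t a b i * (p a * p b) := by
      intro a
      refine Finset.sum_congr rfl fun b _ => ?_
      simp only [Finset.sum_ite_eq', Finset.mem_univ, if_true]
    simp only [e]
    refine Finset.sum_congr rfl fun a _ => Finset.sum_congr rfl fun c _ => ?_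
    rw [ht.2 a c i, ht.1 a i c]
  rw [s1, s2, s3]
  ring

/-- The Hessian matrix of `cub t` at `p` is `6 t(e_i, e_j, p)`. -/
theorem hessAt_cub {t : Fin n → Fin n → Fin n → ℂ} (ht : Sym t) (p : Fin n → ℂ) (i j : Fin n) :
    YG.hessAt (cub t) p i j = 6 * ∑ k, t i j k * p k := by
  have h1 : pderiv j (cub t) = ∑ a, ∑ b, C (3 * t j a b) * (X a * X b) := by
    refine MvPolynomial.funext fun w => ?_
    rw [eval_pderiv_cub ht]
    simp only [map_sum, map_mul, eval_C, eval_X, Finset.mul_sum, mul_assoc]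
  have h2 : YG.hessAt (cub t) p i j = eval p (pderiv i (pderiv j (cub t))) := rfl
  rw [h2, h1]
  have h3 : ∀ (a b : Fin n) (z : ℂ), eval p (pderiv i (C z * (X a * X b))) =
      (if a = i then z * p b else 0) + (if b = i then z * p a else 0) := by
    intro a b z
    rw [pderiv_C_mul, pderiv_mul]
    simp only [map_mul, map_add, eval_C, eval_X, T0.eval_single]
    by_cases h1 : a = i <;> by_cases h2 : b = i <;>
      simp only [h1, h2, if_true, if_false] <;> ring
  simp only [map_sum, h3, Finset.sum_add_distrib]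
  have s1 : ∑ a, ∑ b, (if a = i then 3 * t j a b * p b else 0) =
      3 * ∑ k, t i j k * p k := by
    rw [Finset.sum_comm]
    simp only [Finset.sum_ite_eq', Finset.mem_univ, if_true]
    rw [Finset.mul_sum]
    refine Finset.sum_congr rfl fun b _ => ?_
    rw [ht.1 j i b]
    ring
  have s2 : ∑ a, ∑ b, (if b = i then 3 * t j a b * p a else 0) =
      3 * ∑ k, t i j k * p k := by
    simp only [Finset.sum_ite_eq', Finset.mem_univ, if_true]
    rw [Finset.mul_sum]
    refine Finset.sum_congr rfl fun a _ => ?_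
    rw [ht.2 j a i, ht.1 j i a]
    ring
  rw [s1, s2]
  ring

end CS

end MPb07157
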