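import Pool.Agent.Lib.MP_b07157_agCS.T1
import Pool.Agent.Lib.MP_b07157_agCS.N1
import Pool.Agent.Lib.MP_b07157_agSE.Surf
import Pool.Agent.Lib.MP_b07157_agS4.SAux

/-!
# Cubic forms in three variables
-/

noncomputable section

namespace MPb07157

open MvPolynomial

namespace CS

private theorem a1_exists_basis {p : Fin 4 → ℂ} (hp : p ≠ 0) :
    ∃ b : Module.Basis (Fin 4) ℂ (Fin 4 → ℂ), b 3 = p := by
  have h1 : (Pi.single 3 1 : Fin 4 → ℂ) ≠ 0 := by
    intro h
    have := congrFun h 3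
    simp at this
  obtain ⟨A, hA⟩ := SeparatingDual.exists_continuousLinearEquiv_apply_eq (R := ℂ) h1 hp
  refine ⟨(Pi.basisFun ℂ (Fin 4)).map A.toLinearEquiv, ?_⟩
  rw [Module.Basis.map_apply, Pi.basisFun_apply]
  exact hA

private theorem a1_hom {n : ℕ} (t : Fin n → Fin n → Fin n → ℂ) : (cub t).IsHomogeneous 3 := by
  unfold cub
  refine IsHomogeneous.sum _ _ _ fun i _ => IsHomogeneous.sum _ _ _ fun j _ =>
    IsHomogeneous.sum _ _ _ fun k _ => ?_
  have h1 := (isHomogeneous_C (Fin n) (t i j k)).mul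
    (((isHomogeneous_X ℂ i).mul (isHomogeneous_X ℂ j)).mul (isHomogeneous_X ℂ k))
  simpa using h1

private theorem a1_rename (t : Fin 4 → Fin 4 → Fin 4 → ℂ) (ht : Sym t)
    (h3 : ∀ i j, t i j 3 = 0) :
    cub t = MPb07157.prodSep (cub fun i j k : Fin 3 => t i.castSucc j.castSucc k.castSucc)
      (1 : MvPolynomial (Fin 1) ℂ) := by
  have h3' : ∀ i k, t i 3 k = 0 := fun i k => by rw [ht.2, h3]
  have h3'' : ∀ j k, t 3 j k = 0 := fun j k => by rw [ht.1, h3']
  have hl : (Fin.last 3 : Fin 4) = 3 := rfl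
  unfold MPb07157.prodSep cub
  rw [map_one, mul_one]
  simp only [map_sum, map_mul, rename_C, rename_X]
  rw [Fin.sum_univ_castSucc]
  simp only [hl, h3'', map_zero, zero_mul, Finset.sum_const_zero, add_zero]
  refine Finset.sum_congr rfl fun i _ => ?_
  rw [Fin.sum_univ_castSucc]
  simp only [hl, h3', map_zero, zero_mul, Finset.sum_const_zero, add_zero]
  refine Finset.sum_congr rfl fun j _ => ?_
  rw [Fin.sum_univ_castSucc]
  simp only [hl, h3, map_zero, zero_mul, add_zero]
  rfl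

/-- **A point at which the Hessian matrix is zero.** Proof. `F = cub t`, `t(·, ·, p) = 0`. Choose a
basis `b` with `b_3 = p`; by `linEq_basis`, `F ~ G = cub t'` with `t' i j 3 = 0`, so `G` does not
contain `x_3`: `G = prodSep g 1` with `g = ∑ C (t' i j k) X_i X_j X_k` (`i, j, k : Fin 3`) and
`1 : MvPolynomial (Fin 1) ℂ` (`MvPolynomial.funext`). `SmcLoc g` by `SmcLoc.of_deg3` (agSE/Surf), then
`SmcLoc.prodSep'` (agS4/SClass; the hypothesis on `1` is void since `coeff 0 1 ≠ 0`), and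
`LinEq.smcLoc`. -/
theorem smcLoc_of_hess_eq_zero {F : MvPolynomial (Fin 4) ℂ} (hF : F.IsHomogeneous 3) (hF0 : F ≠ 0)
    {p : Fin 4 → ℂ} (hp : p ≠ 0) (hr : YG.hessAt F p = 0) : SmcLoc F := by
  obtain ⟨t, ht, rfl⟩ := exists_cub hF
  have h1 : ∀ i j, ∑ k, t i j k * p k = 0 := by
    intro i j
    have h2 := congrFun (congrFun hr i) j
    rw [hessAt_cub ht] at h2
    have h3 : (6 : ℂ) * ∑ k, t i j k * p k = 0 := h2
    exact (mul_eq_zero.1 h3).resolve_left (by norm_num)
  obtain ⟨b, hb⟩ := a1_exists_basis hp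
  have hlin := linEq_basis (t := t) b
  have hsym := sym_basis ht (fun i => b i)
  have hz : ∀ x y : Fin 4 → ℂ, tri t x y p = 0 := by
    intro x y
    unfold tri
    refine Finset.sum_eq_zero fun i _ => Finset.sum_eq_zero fun j _ => ?_
    have e : ∀ k, t i j k * (x i * y j * p k) = x i * y j * (t i j k * p k) := fun k => by ring
    simp only [e]
    rw [← Finset.mul_sum, h1, mul_zero]
  have h3 : ∀ i j, tri t (b i) (b j) (b 3) = 0 := fun i j => by rw [hb]; exact hz _ _
  have hren := a1_rename (fun i j k => tri t (b i) (b j) (b k)) hsym h3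
  have hG : cub (fun i j k => tri t (b i) (b j) (b k)) ≠ 0 := by
    intro h0
    obtain ⟨e, he⟩ := hlin
    refine hF0 (MvPolynomial.funext fun w => ?_)
    have h4 := he (e.symm w)
    rw [LinearEquiv.apply_symm_apply, h0, map_zero] at h4
    rw [h4, map_zero]
  refine hlin.smcLoc ?_
  rw [hren] at hG ⊢
  refine SmcLoc.prodSep' hG (fun hf h0 => SmcLoc.of_deg3 hf h0 (a1_hom _).totalDegree_le) ?_
  intro _ h0
  rw [MvPolynomial.coeff_zero_one] at h0
  exact absurd h0 one_ne_zero

end CS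

end MPb07157
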