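import Pool.Agent.Lib.MP_b07157_agCS.T1
import Pool.Agent.Lib.MP_b07157_agCS.B0

/-!
# Points at which the Hessian matrix has rank one: coordinates
-/

noncomputable section

namespace MPb07157

open MvPolynomial

namespace CS

/-- The last coordinate change. -/
private theorem b1_normal (s : Fin 4 → Fin 4 → Fin 4 → ℂ) (hs : Sym s) (h00 : s 0 0 3 = 1 / 6)
    (h0 : ∀ i j : Fin 4, (i ≠ 0 ∨ j ≠ 0) → s i j 3 = 0) :
    ∃ (q : Fin 3 → ℂ) (c : Fin 4 → ℂ), LinEq (cub s) (gB q c) := by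
  have e010 : s 0 1 0 = s 0 0 1 := (hs.2 0 1 0)
  have e020 : s 0 2 0 = s 0 0 2 := (hs.2 0 2 0)
  have e021 : s 0 2 1 = s 0 1 2 := (hs.2 0 2 1)
  have e030 : s 0 3 0 = s 0 0 3 := (hs.2 0 3 0)
  have e031 : s 0 3 1 = s 0 1 3 := (hs.2 0 3 1)
  have e032 : s 0 3 2 = s 0 2 3 := (hs.2 0 3 2)
  have e100 : s 1 0 0 = s 0 0 1 := ((hs.1 1 0 0)).trans ((hs.2 0 1 0))
  have e101 : s 1 0 1 = s 0 1 1 := (hs.1 1 0 1)
  have e102 : s 1 0 2 = s 0 1 2 := (hs.1 1 0 2)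
  have e103 : s 1 0 3 = s 0 1 3 := (hs.1 1 0 3)
  have e110 : s 1 1 0 = s 0 1 1 := ((hs.2 1 1 0)).trans ((hs.1 1 0 1))
  have e120 : s 1 2 0 = s 0 1 2 := ((hs.2 1 2 0)).trans ((hs.1 1 0 2))
  have e121 : s 1 2 1 = s 1 1 2 := (hs.2 1 2 1)
  have e130 : s 1 3 0 = s 0 1 3 := ((hs.2 1 3 0)).trans ((hs.1 1 0 3))
  have e131 : s 1 3 1 = s 1 1 3 := (hs.2 1 3 1)
  have e132 : s 1 3 2 = s 1 2 3 := (hs.2 1 3 2)
  have e200 : s 2 0 0 = s 0 0 2 := ((hs.1 2 0 0)).trans ((hs.2 0 2 0))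
  have e201 : s 2 0 1 = s 0 1 2 := ((hs.1 2 0 1)).trans ((hs.2 0 2 1))
  have e202 : s 2 0 2 = s 0 2 2 := (hs.1 2 0 2)
  have e203 : s 2 0 3 = s 0 2 3 := (hs.1 2 0 3)
  have e210 : s 2 1 0 = s 0 1 2 := (((hs.1 2 1 0)).trans (hs.2 1 2 0)).trans (hs.1 1 0 2)
  have e211 : s 2 1 1 = s 1 1 2 := ((hs.1 2 1 1)).trans ((hs.2 1 2 1))
  have e212 : s 2 1 2 = s 1 2 2 := (hs.1 2 1 2)
  have e213 : s 2 1 3 = s 1 2 3 := (hs.1 2 1 3)
  have e220 : s 2 2 0 = s 0 2 2 := ((hs.2 2 2 0)).trans ((hs.1 2 0 2))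
  have e221 : s 2 2 1 = s 1 2 2 := ((hs.2 2 2 1)).trans ((hs.1 2 1 2))
  have e230 : s 2 3 0 = s 0 2 3 := ((hs.2 2 3 0)).trans ((hs.1 2 0 3))
  have e231 : s 2 3 1 = s 1 2 3 := ((hs.2 2 3 1)).trans ((hs.1 2 1 3))
  have e232 : s 2 3 2 = s 2 2 3 := (hs.2 2 3 2)
  have e300 : s 3 0 0 = s 0 0 3 := ((hs.1 3 0 0)).trans ((hs.2 0 3 0))
  have e301 : s 3 0 1 = s 0 1 3 := ((hs.1 3 0 1)).trans ((hs.2 0 3 1))
  have e302 : s 3 0 2 = s 0 2 3 := ((hs.1 3 0 2)).trans ((hs.2 0 3 2))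
  have e303 : s 3 0 3 = s 0 3 3 := (hs.1 3 0 3)
  have e310 : s 3 1 0 = s 0 1 3 := (((hs.1 3 1 0)).trans (hs.2 1 3 0)).trans (hs.1 1 0 3)
  have e311 : s 3 1 1 = s 1 1 3 := ((hs.1 3 1 1)).trans ((hs.2 1 3 1))
  have e312 : s 3 1 2 = s 1 2 3 := ((hs.1 3 1 2)).trans ((hs.2 1 3 2))
  have e313 : s 3 1 3 = s 1 3 3 := (hs.1 3 1 3)
  have e320 : s 3 2 0 = s 0 2 3 := (((hs.1 3 2 0)).trans (hs.2 2 3 0)).trans (hs.1 2 0 3)
  have e321 : s 3 2 1 = s 1 2 3 := (((hs.1 3 2 1)).trans (hs.2 2 3 1)).trans (hs.1 2 1 3)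
  have e322 : s 3 2 2 = s 2 2 3 := ((hs.1 3 2 2)).trans ((hs.2 2 3 2))
  have e323 : s 3 2 3 = s 2 3 3 := (hs.1 3 2 3)
  have e330 : s 3 3 0 = s 0 3 3 := ((hs.2 3 3 0)).trans ((hs.1 3 0 3))
  have e331 : s 3 3 1 = s 1 3 3 := ((hs.2 3 3 1)).trans ((hs.1 3 1 3))
  have e332 : s 3 3 2 = s 2 3 3 := ((hs.2 3 3 2)).trans ((hs.1 3 2 3))
  have z01 : s 0 1 3 = 0 := h0 0 1 (by decide)
  have z02 : s 0 2 3 = 0 := h0 0 2 (by decide)
  have z03 : s 0 3 3 = 0 := h0 0 3 (by decide)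
  have z11 : s 1 1 3 = 0 := h0 1 1 (by decide)
  have z12 : s 1 2 3 = 0 := h0 1 2 (by decide)
  have z13 : s 1 3 3 = 0 := h0 1 3 (by decide)
  have z22 : s 2 2 3 = 0 := h0 2 2 (by decide)
  have z23 : s 2 3 3 = 0 := h0 2 3 (by decide)
  have z33 : s 3 3 3 = 0 := h0 3 3 (by decide)
  refine ⟨![3 * s 0 1 1, 6 * s 0 1 2, 3 * s 0 2 2], ![s 1 1 1, 3 * s 1 1 2, 3 * s 1 2 2, s 2 2 2],
    ?_⟩
  obtain ⟨M, hM⟩ : ∃ M : Matrix (Fin 4) (Fin 4) ℂ, M = !![1, 0, 0, 0; 0, 1, 0, 0; 0, 0, 1, 0;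
    -2 * s 0 0 0, -6 * s 0 0 1, -6 * s 0 0 2, 2] := ⟨_, rfl⟩
  have hdet : M.det ≠ 0 := by
    have h1 : M.det = 2 := by
      rw [hM, Matrix.det_succ_row_zero]
      simp [Fin.sum_univ_succ, Matrix.det_fin_three, Fin.succAbove]
    rw [h1]
    norm_num
  have hv : ∀ w : Fin 4 → ℂ, M.mulVec w = ![w 0, w 1, w 2,
      -2 * s 0 0 0 * w 0 - 6 * s 0 0 1 * w 1 - 6 * s 0 0 2 * w 2 + 2 * w 3] := by
    intro w
    ext i
    fin_cases i
    · simp [hM, Matrix.mulVec, dotProduct, Fin.sum_univ_four]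
    · simp [hM, Matrix.mulVec, dotProduct, Fin.sum_univ_four]
    · simp [hM, Matrix.mulVec, dotProduct, Fin.sum_univ_four]
    · simp [hM, Matrix.mulVec, dotProduct, Fin.sum_univ_four]
      ring
  refine LinEq.of_matrix M hdet fun w => ?_
  rw [hv, eval_cub]
  obtain ⟨y, hy⟩ : ∃ y : ℂ, y = -2 * s 0 0 0 * w 0 - 6 * s 0 0 1 * w 1 - 6 * s 0 0 2 * w 2 + 2 * w 3 :=
    ⟨_, rfl⟩
  rw [← hy]
  have y0 : (![w 0, w 1, w 2, y] : Fin 4 → ℂ) 0 = w 0 := rfl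
  have y1 : (![w 0, w 1, w 2, y] : Fin 4 → ℂ) 1 = w 1 := rfl
  have y2 : (![w 0, w 1, w 2, y] : Fin 4 → ℂ) 2 = w 2 := rfl
  have y3 : (![w 0, w 1, w 2, y] : Fin 4 → ℂ) 3 = y := rfl
  have h1 : eval w (gB ![3 * s 0 1 1, 6 * s 0 1 2, 3 * s 0 2 2]
      ![s 1 1 1, 3 * s 1 1 2, 3 * s 1 2 2, s 2 2 2]) =
      w 3 * w 0 ^ 2 + w 0 * (3 * s 0 1 1 * w 1 ^ 2 + 6 * s 0 1 2 * (w 1 * w 2) +
        3 * s 0 2 2 * w 2 ^ 2) + (s 1 1 1 * w 1 ^ 3 + 3 * s 1 1 2 * (w 1 ^ 2 * w 2) +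
        3 * s 1 2 2 * (w 1 * w 2 ^ 2) + s 2 2 2 * w 2 ^ 3) := by
    simp [gB]
  rw [h1]
  simp only [tri, Fin.sum_univ_four, y0, y1, y2, y3, e010, e020, e021, e030, e031, e032, e100, e101, e102, e103, e110, e120, e121, e130, e131,
    e132, e200, e201, e202, e203, e210, e211, e212, e213, e220, e221, e230, e231, e232, e300,
    e301, e302, e303, e310, e311, e312, e313, e320, e321, e322, e323, e330, e331, e332, z01,
    z02, z03, z11, z12, z13, z22, z23, z33, h00]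
  rw [hy]
  ring

/-- **The normal form.** Proof. `F = cub t`; `6 t(·, ·, p)` is the Hessian matrix `λ λ^T`, and
`λ(p) = 0` because `p` is a critical point (`t(p, p, z) = 0` for all `z`). In the basis `b`
(`linEq_basis`) we have the coefficients `t'_{ij3} = λ(b_i) λ(b_j) / 6`, i.e. `1/6` for `i = j = 0`
and `0` otherwise, so `F ~ (1/2) x_0² x_3 + C(x_0, x_1, x_2)`, and `C = x_0² l + x_0 q + c`; replace
`x_3` by `2 x_3 - 2 l(x_0, x_1, x_2)`. (Expand the 64 terms with `Fin.sum_univ_four`; use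
`LinEq.of_matrix` with an explicit matrix for the last step.) -/
theorem exists_gB {F : MvPolynomial (Fin 4) ℂ} (hF : F.IsHomogeneous 3) {p : Fin 4 → ℂ}
    (hp : p ≠ 0) (hc : p ∈ Cr F) (hr : (YG.hessAt F p).rank = 1) :
    ∃ (q : Fin 3 → ℂ) (c : Fin 4 → ℂ), LinEq F (gB q c) := by
  obtain ⟨t, ht, rfl⟩ := exists_cub hF
  have hsym : (YG.hessAt (cub t) p).IsSymm := by
    ext i j
    rw [Matrix.transpose_apply, hessAt_cub ht, hessAt_cub ht]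
    congr 1
    exact Finset.sum_congr rfl fun k _ => by rw [ht.1 j i k]
  obtain ⟨l, hl, hlA⟩ := exists_of_rank_one hsym hr
  have htp : ∀ x y : Fin 4 → ℂ, tri t x y p = 1 / 6 * ((∑ i, l i * x i) * (∑ j, l j * y j)) := by
    intro x y
    have h1 : ∀ i j, ∑ k, t i j k * p k = 1 / 6 * (l i * l j) := by
      intro i j
      have h2 := hlA i j
      rw [hessAt_cub ht] at h2
      linear_combination (1 / 6) * h2
    have h3 : tri t x y p = ∑ i, ∑ j, (∑ k, t i j k * p k) * (x i * y j) := by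
      unfold tri
      refine Finset.sum_congr rfl fun i _ => Finset.sum_congr rfl fun j _ => ?_
      rw [Finset.sum_mul]
      exact Finset.sum_congr rfl fun k _ => by ring
    rw [h3, Finset.sum_mul_sum, Finset.mul_sum]
    refine Finset.sum_congr rfl fun i _ => ?_
    rw [Finset.mul_sum]
    refine Finset.sum_congr rfl fun j _ => ?_
    rw [h1]
    ring
  have hlp : ∑ i, l i * p i = 0 := by
    have h1 := (mem_Cr_cub ht p).1 hc p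
    rw [htp] at h1
    have h2 : (∑ i, l i * p i) * (∑ i, l i * p i) = 0 := by
      linear_combination 6 * h1
    exact mul_self_eq_zero.1 h2
  obtain ⟨b, hb3, hb0, hb1, hb2⟩ := exists_basis_of_form hl hp hlp
  have hb : ∀ i : Fin 4, i ≠ 0 → ∑ j, l j * b i j = 0 := by
    intro i hi
    fin_cases i
    · exact absurd rfl hi
    · exact hb1
    · exact hb2
    · rw [← hb3] at hlp
      exact hlp
  have hs3 : ∀ i j : Fin 4, tri t (b i) (b j) (b 3) =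
      1 / 6 * ((∑ k, l k * b i k) * (∑ k, l k * b j k)) := by
    intro i j
    rw [hb3]
    exact htp _ _
  obtain ⟨q, c, h⟩ := b1_normal (fun i j k => tri t (b i) (b j) (b k)) (sym_basis ht b)
    (by
      show tri t (b 0) (b 0) (b 3) = 1 / 6
      rw [hs3, hb0]
      ring)
    (by
      intro i j hij
      show tri t (b i) (b j) (b 3) = 0
      rw [hs3]
      rcases hij with h1 | h1
      · rw [hb i h1]
        ring
      · rw [hb j h1]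
        ring)
  exact ⟨q, c, (linEq_basis b).trans h⟩

end CS

end MPb07157
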