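import Pool.Agent.Lib.MP_b07157_agCS.E0

/-!
# Normal forms: x_1^3 + x_2^3
-/

noncomputable section

namespace MPb07157

open MvPolynomial

namespace CS

/-- `c = x_1³ + x_2³`: the shifts `x_1 → x_1 - (q_0/3) x_0`, `x_2 → x_2 - (q_2/3) x_0` and
`x_3 → x_3 + (linear form in x_0, x_1, x_2)` give `x_3 x_0² + q_1 x_0 x_1 x_2 + x_1³ + x_2³`; the
exponents `(2,0,0,1), (1,1,1,0), (0,3,0,0), (0,0,3,0)` are linearly independent (`linExp_four`). The
explicit change of coordinates: `LinEq.of_matrix`. -/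
theorem linGood_gB_one (q : Fin 3 → ℂ) : LinGood (gB q ![1, 0, 0, 1]) := by
  refine ⟨X 3 * X 0 ^ 2 + C (q 1) * (X 0 * X 1 * X 2) + X 1 ^ 3 + X 2 ^ 3, ?_, ?_⟩
  · refine LinEq.of_matrix !![1, 0, 0, 0; -(q 0 / 3), 1, 0, 0; -(q 2 / 3), 0, 1, 0;
      -(2 * q 0 ^ 3 / 27) - 2 * q 2 ^ 3 / 27 - q 0 * q 1 * q 2 / 9,
      q 0 ^ 2 / 3 + q 1 * q 2 / 3, q 2 ^ 2 / 3 + q 0 * q 1 / 3, 1] ?_ fun w => ?_
    · simp [Matrix.det_succ_row_zero, Fin.sum_univ_succ, Fin.succAbove]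
    · simp only [gB, map_add, map_mul, map_pow, eval_C, eval_X, Matrix.mulVec, dotProduct,
        Fin.sum_univ_four, Matrix.of_apply, Matrix.cons_val', Matrix.cons_val_zero,
        Matrix.cons_val_one, Matrix.cons_val, Matrix.cons_val_fin_one]
      ring
  · refine linExp_four ![![2, 0, 0, 1], ![1, 1, 1, 0], ![0, 3, 0, 0], ![0, 0, 3, 0]] ?_
      ![1, q 1, 1, 1] fun w => ?_
    · simp [Matrix.det_succ_row_zero, Fin.sum_univ_succ, Fin.succAbove]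
    · simp [Fin.sum_univ_four]
      ring

end CS

end MPb07157
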