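import Pool.Agent.Lib.MP_b07157_agCS.E0

/-!
# Normal forms: x_1^2 x_2
-/

noncomputable section

namespace MPb07157

open MvPolynomial

namespace CS

/-- `c = x_1² x_2`: the shifts `x_1 → x_1 - (q_1/2) x_0`, `x_2 → x_2 - q_0 x_0` (and
`x_3 → x_3 + linear form`) give `x_3 x_0² + q_2 x_0 x_2² + x_1² x_2`; exponents
`(2,0,0,1), (1,0,2,0), (0,2,1,0)`, completed by `(0,1,0,0)` with coefficient zero. -/
theorem linGood_gB_two (q : Fin 3 → ℂ) : LinGood (gB q ![0, 1, 0, 0]) := by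
  refine ⟨X 3 * X 0 ^ 2 + C (q 2) * (X 0 * X 2 ^ 2) + X 1 ^ 2 * X 2, ?_, ?_⟩
  · refine LinEq.of_matrix !![1, 0, 0, 0; -(q 1 / 2), 1, 0, 0; -(q 0), 0, 1, 0;
      -(q 0 * q 1 ^ 2 / 2 + q 0 ^ 2 * q 2), q 0 * q 1, q 1 ^ 2 / 4 + 2 * q 0 * q 2, 1] ?_ ?_
    · simp [Matrix.det_succ_row_zero, Fin.sum_univ_succ, Fin.succAbove]
    · intro w
      simp [gB, Matrix.mulVec, dotProduct, Fin.sum_univ_four]
      ring
  · refine linExp_four ![![2, 0, 0, 1], ![1, 0, 2, 0], ![0, 2, 1, 0], ![0, 1, 0, 0]] ?_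
      ![1, q 2, 1, 0] ?_
    · simp [Matrix.det_succ_row_zero, Fin.sum_univ_succ, Fin.succAbove]
    · intro w
      simp [Fin.sum_univ_four]
      ring

end CS

end MPb07157
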