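import Pool.Agent.Lib.MP_b07157_agCS.E0

/-!
# Normal forms: x_1^3
-/

noncomputable section

namespace MPb07157

open MvPolynomial

namespace CS

private theorem b3c_det (a b c d e f : ℂ) :
    (!![1, 0, 0, 0; a, 1, 0, 0; b, c, 1, 0; d, e, f, 1] : Matrix (Fin 4) (Fin 4) ℂ).det = 1 := by
  simp [Matrix.det_succ_row_zero, Fin.sum_univ_succ, Fin.succAbove]

private theorem b3c_linExp (v2 : Fin 4 → ℕ) (x y z : ℕ) (h2 : v2 = ![1, x, y, z]) (hz : z = 0)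
    (c : ℂ) {F : MvPolynomial (Fin 4) ℂ}
    (hF : ∀ w : Fin 4 → ℂ, eval w F = w 3 * w 0 ^ 2 + c * (w 0 * w 1 ^ x * w 2 ^ y) + w 1 ^ 3) :
    LinExp F := by
  subst hz
  refine linExp_four ![![2, 0, 0, 1], v2, ![0, 3, 0, 0], ![0, 0, 3, 0]] ?_ ![1, c, 1, 0] ?_
  · subst h2
    simp [Matrix.det_succ_row_zero, Fin.sum_univ_succ, Fin.succAbove]
  · intro w
    rw [hF]
    subst h2
    simp [Fin.sum_univ_succ]
    ring

/-- `c = x_1³`: if `q_2 = 0` the shift `x_1 → x_1 - (q_0/3) x_0` gives `x_3 x_0² + q_1 x_0 x_1 x_2 +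
x_1³`; if `q_2 ≠ 0` the substitution `x_2 → x_2 - (q_1/(2 q_2)) x_1` followed by a shift
`x_1 → x_1 + s x_0` (and corrections of `x_2` by a multiple of `x_0`, of `x_3` by a linear form) gives
`x_3 x_0² + q_2 x_0 x_2² + x_1³`. The exponents `(2,0,0,1), (1,1,1,0), (0,3,0,0)`, respectively
`(2,0,0,1), (1,0,2,0), (0,3,0,0)`, are linearly independent. -/
theorem linGood_gB_three (q : Fin 3 → ℂ) : LinGood (gB q ![1, 0, 0, 0]) := by
  by_cases hq : q 2 = 0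
  · refine ⟨X 3 * X 0 ^ 2 + C (q 1) * (X 0 * X 1 * X 2) + X 1 ^ 3, ?_, ?_⟩
    · refine LinEq.of_matrix !![1, 0, 0, 0; -(q 0 / 3), 1, 0, 0; 0, 0, 1, 0;
        -(q 0 * (q 0 / 3) ^ 2 - (q 0 / 3) ^ 3), 2 * q 0 * (q 0 / 3) - 3 * (q 0 / 3) ^ 2,
        q 1 * (q 0 / 3), 1] ?_ ?_
      · rw [b3c_det]; exact one_ne_zero
      · intro w
        simp [gB, Matrix.mulVec, dotProduct, Fin.sum_univ_four, hq]
        ring
    · refine b3c_linExp ![1, 1, 1, 0] 1 1 0 rfl rfl (q 1) ?_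
      intro w
      simp
  · refine ⟨X 3 * X 0 ^ 2 + C (q 2) * (X 0 * X 2 ^ 2) + X 1 ^ 3, ?_, ?_⟩
    · obtain ⟨r, hr⟩ : ∃ r, r = q 1 / (2 * q 2) := ⟨_, rfl⟩
      have h1 : q 1 = 2 * q 2 * r := by rw [hr]; field_simp
      obtain ⟨p, hp⟩ : ∃ p, p = q 0 - q 2 * r ^ 2 := ⟨_, rfl⟩
      have h0 : q 0 = p + q 2 * r ^ 2 := by rw [hp]; ring
      refine LinEq.of_matrix !![1, 0, 0, 0; -(p / 3), 1, 0, 0; r * (p / 3), -r, 1, 0;
        -(p * (p / 3) ^ 2 - (p / 3) ^ 3), 2 * p * (p / 3) - 3 * (p / 3) ^ 2,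
        0, 1] ?_ ?_
      · rw [b3c_det]; exact one_ne_zero
      · intro w
        simp [gB, Matrix.mulVec, dotProduct, Fin.sum_univ_four, h1, h0]
        ring
    · refine b3c_linExp ![1, 0, 2, 0] 0 2 0 rfl rfl (q 2) ?_
      intro w
      simp

end CS

end MPb07157
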