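import Pool.Agent.Lib.MP_b07157_agCS.E0
import Pool.Agent.Lib.MP_b07157_agCS.B2

/-!
# Normal forms: no cubic term
-/

noncomputable section

namespace MPb07157

open MvPolynomial

namespace CS

/-- `c = 0`: after a linear change of `x_1, x_2` (`binary_quadratic`) the form is
`x_3 x_0² + x_0 (α x_1² + β x_2²)`; exponents `(2,0,0,1), (1,2,0,0), (1,0,2,0)`. -/
theorem linGood_gB_zero (q : Fin 3 → ℂ) : LinGood (gB q 0) := by
  obtain ⟨a, b, g, d, α, β, hdet, hq⟩ := binary_quadratic q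
  refine ⟨X 3 * X 0 ^ 2 + X 0 * (C α * X 1 ^ 2 + C β * X 2 ^ 2), ?_, ?_⟩
  · refine LinEq.of_matrix !![1, 0, 0, 0; 0, a, b, 0; 0, g, d, 0; 0, 0, 0, 1] ?_ fun w => ?_
    · have h1 : (!![1, 0, 0, 0; 0, a, b, 0; 0, g, d, 0; 0, 0, 0, 1] : Matrix (Fin 4) (Fin 4) ℂ).det
          = a * d - b * g := by
        simp [Matrix.det_succ_row_zero, Fin.sum_univ_succ, Fin.succAbove]
        ring
      rw [h1]
      exact hdet
    · have h2 := hq (w 1) (w 2)
      simp only [gB, Matrix.mulVec, dotProduct, Fin.sum_univ_four, map_add, map_mul, map_pow,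
        eval_X, eval_C, Pi.zero_apply, map_zero]
      simp
      exact Or.inl (by linear_combination h2)
  · refine linExp_four ![![2, 0, 0, 1], ![1, 2, 0, 0], ![1, 0, 2, 0], ![0, 0, 0, 1]] ?_
      ![1, α, β, 0] fun w => ?_
    · simp [Matrix.det_succ_row_zero, Fin.sum_univ_succ, Fin.succAbove]
    · simp [Fin.sum_univ_four]
      ring

end CS

end MPb07157
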