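import Pool.Agent.Lib.MP_b07157_agCS.B2

/-!
# Linear changes of two coordinates
-/

noncomputable section

namespace MPb07157

open MvPolynomial

namespace CS

/-- A linear change of `x_1, x_2`: the form `gB q c` becomes `gB q' c'`, where `c'` has the given
values. (`q'` is explicit: `q'_0 = q_0 a² + q_1 a g + q_2 g²` etc.; `LinEq.of_matrix`.) -/
theorem gB_change (q : Fin 3 → ℂ) {c c' : Fin 4 → ℂ} {a b g d : ℂ} (h : a * d - b * g ≠ 0)
    (hc : ∀ y z, bc c (a * y + b * z) (g * y + d * z) = bc c' y z) :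
    ∃ q', LinEq (gB q c) (gB q' c') := by
  refine ⟨![q 0 * a ^ 2 + q 1 * (a * g) + q 2 * g ^ 2,
    2 * q 0 * (a * b) + q 1 * (a * d + b * g) + 2 * q 2 * (g * d),
    q 0 * b ^ 2 + q 1 * (b * d) + q 2 * d ^ 2], ?_⟩
  refine LinEq.of_matrix !![1, 0, 0, 0; 0, a, b, 0; 0, g, d, 0; 0, 0, 0, 1] ?_ ?_
  · have : (!![1, 0, 0, 0; 0, a, b, 0; 0, g, d, 0; 0, 0, 0, 1] : Matrix (Fin 4) (Fin 4) ℂ).det
        = a * d - b * g := by
      simp [Matrix.det_succ_row_zero, Fin.sum_univ_succ, Fin.succAbove]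
      ring
    rw [this]
    exact h
  · intro w
    have h1 := hc (w 1) (w 2)
    simp only [bc] at h1
    have e0 : ((!![1, 0, 0, 0; 0, a, b, 0; 0, g, d, 0; 0, 0, 0, 1] :
        Matrix (Fin 4) (Fin 4) ℂ).mulVec w) 0 = w 0 := by
      simp [Matrix.mulVec, dotProduct, Fin.sum_univ_four]
    have e1 : ((!![1, 0, 0, 0; 0, a, b, 0; 0, g, d, 0; 0, 0, 0, 1] :
        Matrix (Fin 4) (Fin 4) ℂ).mulVec w) 1 = a * w 1 + b * w 2 := by
      simp [Matrix.mulVec, dotProduct, Fin.sum_univ_four]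
    have e2 : ((!![1, 0, 0, 0; 0, a, b, 0; 0, g, d, 0; 0, 0, 0, 1] :
        Matrix (Fin 4) (Fin 4) ℂ).mulVec w) 2 = g * w 1 + d * w 2 := by
      simp [Matrix.mulVec, dotProduct, Fin.sum_univ_four]
    have e3 : ((!![1, 0, 0, 0; 0, a, b, 0; 0, g, d, 0; 0, 0, 0, 1] :
        Matrix (Fin 4) (Fin 4) ℂ).mulVec w) 3 = w 3 := by
      simp [Matrix.mulVec, dotProduct, Fin.sum_univ_four]
    simp only [gB, map_add, map_mul, map_pow, eval_X, eval_C, e0, e1, e2, e3,
      Matrix.cons_val_zero, Matrix.cons_val_one, Matrix.cons_val]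
    linear_combination h1

end CS

end MPb07157
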