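import Pool.Agent.Lib.MP_b07157_agCS.B1
import Pool.Agent.Lib.MP_b07157_agCS.B2
import Pool.Agent.Lib.MP_b07157_agCS.B3a
import Pool.Agent.Lib.MP_b07157_agCS.B3b
import Pool.Agent.Lib.MP_b07157_agCS.B3c
import Pool.Agent.Lib.MP_b07157_agCS.B3d
import Pool.Agent.Lib.MP_b07157_agCS.B3e

/-!
# Points at which the Hessian matrix has rank one
-/

noncomputable section

namespace MPb07157

open MvPolynomial

namespace CS

theorem linGood_gB (q : Fin 3 → ℂ) (c : Fin 4 → ℂ) : LinGood (gB q c) := by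
  obtain ⟨a, b, g, d, h, h1 | h1 | h1 | h1⟩ := binary_cubic c
  · obtain ⟨q', h2⟩ := gB_change q h (c' := ![1, 0, 0, 1]) fun y z => by
      rw [h1]; simp [bc]
    exact (linGood_gB_one q').of_linEq h2
  · obtain ⟨q', h2⟩ := gB_change q h (c' := ![0, 1, 0, 0]) fun y z => by
      rw [h1]; simp [bc]
    exact (linGood_gB_two q').of_linEq h2
  · obtain ⟨q', h2⟩ := gB_change q h (c' := ![1, 0, 0, 0]) fun y z => by
      rw [h1]; simp [bc]
    exact (linGood_gB_three q').of_linEq h2
  · obtain ⟨q', h2⟩ := gB_change q h (c' := 0) fun y z => by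
      rw [h1]; simp [bc]
    exact (linGood_gB_zero q').of_linEq h2

/-- **A critical point at which the Hessian matrix has rank one.** -/
theorem linGood_of_rank_one {F : MvPolynomial (Fin 4) ℂ} (hF : F.IsHomogeneous 3) {p : Fin 4 → ℂ}
    (hp : p ≠ 0) (hc : p ∈ Cr F) (hr : (YG.hessAt F p).rank = 1) : LinGood F := by
  obtain ⟨q, c, h⟩ := exists_gB hF hp hc hr
  exact (linGood_gB q c).of_linEq h

end CS

end MPb07157
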