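import Pool.Agent.Lib.MP_b07157_agCS.E0

/-!
# Products of a linear and a quadratic form
-/

noncomputable section

namespace MPb07157

open MvPolynomial

namespace CS

/-- The product of `x_3` and a diagonal quadratic form in `x_0, x_1, x_2` plus `x_3` times a linear
form. -/
def gQ (α β : Fin 3 → ℂ) (c : ℂ) : MvPolynomial (Fin 4) ℂ :=
  X 3 * (C (α 0) * X 0 ^ 2 + C (α 1) * X 1 ^ 2 + C (α 2) * X 2 ^ 2 +
    X 3 * (C (β 0) * X 0 + C (β 1) * X 1 + C (β 2) * X 2 + C c * X 3))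

theorem eval_gQ (α β : Fin 3 → ℂ) (c : ℂ) (w : Fin 4 → ℂ) : eval w (gQ α β c) =
    w 3 * (α 0 * w 0 ^ 2 + α 1 * w 1 ^ 2 + α 2 * w 2 ^ 2 +
      w 3 * (β 0 * w 0 + β 1 * w 1 + β 2 * w 2 + c * w 3)) := by
  simp only [gQ, map_mul, map_add, map_pow, eval_X, eval_C]

/-- Diagonalization of the quadratic form in `x_0, x_1, x_2`: for a symmetric matrix `A` there is a
basis `b` of `ℂ³` with `b_iᵀ A b_j = 0` for `i ≠ j` (`LinearMap.BilinForm.exists_orthogonal_basis`). -/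
theorem exists_gQ {t : Fin 3 → Fin 3 → ℂ} (ht : ∀ i j, t i j = t j i) (m : Fin 4 → ℂ)
    {F : MvPolynomial (Fin 4) ℂ}
    (hF : ∀ w : Fin 4 → ℂ, eval w F = w 3 * (∑ i : Fin 3, ∑ j : Fin 3,
      t i j * (w i.castSucc * w j.castSucc) + w 3 * ∑ i, m i * w i)) :
    ∃ α β c, LinEq F (gQ α β c) := by
  classical
  have : Invertible (2 : ℂ) := invertibleOfNonzero two_ne_zero
  let B : LinearMap.BilinForm ℂ (Fin 3 → ℂ) := Matrix.toBilin' (Matrix.of t)
  have hBa : ∀ x y, B x y = ∑ i, ∑ j, x i * t i j * y j := fun x y => Matrix.toBilin'_apply _ _ _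
  have hB0 : ∀ x y, B x y = B y x := by
    intro x y
    rw [hBa, hBa, Finset.sum_comm]
    refine Finset.sum_congr rfl fun i _ => Finset.sum_congr rfl fun j _ => ?_
    rw [ht j i]
    ring
  have hB : LinearMap.IsSymm B := ⟨hB0⟩
  obtain ⟨v', hv'⟩ := LinearMap.BilinForm.exists_orthogonal_basis hB
  have hfr : Module.finrank ℂ (Fin 3 → ℂ) = 3 := by
    rw [Module.finrank_fintype_fun_eq_card, Fintype.card_fin]
  obtain ⟨v, hv⟩ : ∃ v : Module.Basis (Fin 3) ℂ (Fin 3 → ℂ), ∀ i j, i ≠ j → B (v i) (v j) = 0 := by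
    refine ⟨v'.reindex (finCongr hfr), fun i j hij => ?_⟩
    rw [Module.Basis.reindex_apply, Module.Basis.reindex_apply]
    exact hv' fun h => hij ((finCongr hfr).symm.injective h)
  let f : (Fin 4 → ℂ) →ₗ[ℂ] (Fin 4 → ℂ) := LinearMap.pi fun a : Fin 4 =>
    Fin.lastCases (motive := fun _ => (Fin 4 → ℂ) →ₗ[ℂ] ℂ) (LinearMap.proj (Fin.last 3))
      (fun a' => ∑ i : Fin 3, v i a' • LinearMap.proj i.castSucc) a
  have hf1 : ∀ w (a : Fin 3), f w a.castSucc = ∑ i : Fin 3, v i a * w i.castSucc := by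
    intro w a
    show (Fin.lastCases (motive := fun _ => (Fin 4 → ℂ) →ₗ[ℂ] ℂ) (LinearMap.proj (Fin.last 3))
      (fun a' => ∑ i : Fin 3, v i a' • LinearMap.proj i.castSucc) a.castSucc) w = _
    rw [Fin.lastCases_castSucc, LinearMap.sum_apply]
    rfl
  have hf2 : ∀ w, f w 3 = w 3 := by
    intro w
    show (Fin.lastCases (motive := fun _ => (Fin 4 → ℂ) →ₗ[ℂ] ℂ) (LinearMap.proj (Fin.last 3))
      (fun a' => ∑ i : Fin 3, v i a' • LinearMap.proj i.castSucc) (Fin.last 3)) w = _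
    rw [Fin.lastCases_last]
    rfl
  have hinj : Function.Injective f := by
    rw [injective_iff_map_eq_zero]
    intro w hw
    have h1 := v.linearIndependent
    rw [Fintype.linearIndependent_iff] at h1
    have h2 := h1 (fun i => w i.castSucc) (by
      funext a
      have h3 := congrFun hw a.castSucc
      rw [hf1] at h3
      rw [Finset.sum_apply, Pi.zero_apply]
      rw [Pi.zero_apply] at h3
      rw [← h3]
      exact Finset.sum_congr rfl fun i _ => by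
        rw [Pi.smul_apply, smul_eq_mul, mul_comm])
    funext a
    refine Fin.lastCases ?_ (fun a' => ?_) a
    · have h3 := congrFun hw 3
      rw [hf2] at h3
      exact h3
    · exact h2 a'
  refine ⟨fun i => B (v i) (v i), fun k => ∑ a : Fin 3, m a.castSucc * v k a, m 3,
    LinearEquiv.ofInjectiveEndo f hinj, fun w => ?_⟩
  have he : ∀ w, LinearEquiv.ofInjectiveEndo f hinj w = f w := fun w => rfl
  rw [he, hF, hf2, eval_gQ]
  have h1 : ∑ i : Fin 3, ∑ j : Fin 3, t i j * (f w i.castSucc * f w j.castSucc) =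
      B (fun a => f w a.castSucc) (fun a => f w a.castSucc) := by
    rw [hBa]
    exact Finset.sum_congr rfl fun i _ => Finset.sum_congr rfl fun j _ => by ring
  have h2 : (fun a : Fin 3 => f w a.castSucc) = ∑ i : Fin 3, w i.castSucc • v i := by
    funext a
    rw [hf1, Finset.sum_apply]
    exact Finset.sum_congr rfl fun i _ => by rw [Pi.smul_apply, smul_eq_mul, mul_comm]
  have h3 : B (∑ i : Fin 3, w i.castSucc • v i) (∑ i : Fin 3, w i.castSucc • v i) =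
      B (v 0) (v 0) * w 0 ^ 2 + B (v 1) (v 1) * w 1 ^ 2 + B (v 2) (v 2) * w 2 ^ 2 := by
    rw [Fin.sum_univ_three]
    simp only [map_add, map_smul, LinearMap.add_apply, LinearMap.smul_apply, smul_eq_mul]
    rw [hv 0 1 (by decide), hv 0 2 (by decide), hv 1 0 (by decide), hv 1 2 (by decide),
      hv 2 0 (by decide), hv 2 1 (by decide)]
    show w 0 * (w 0 * _ + w 1 * 0 + w 2 * 0) + w 1 * (w 0 * 0 + w 1 * _ + w 2 * 0) +
      w 2 * (w 0 * 0 + w 1 * 0 + w 2 * _) = _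
    ring
  rw [h1, h2, h3]
  congr 1
  congr 1
  congr 1
  rw [Fin.sum_univ_castSucc]
  have h4 : f w (Fin.last 3) = w 3 := hf2 w
  rw [h4]
  simp only [hf1, Fin.sum_univ_three]
  show m 0 * (v 0 0 * w 0 + v 1 0 * w 1 + v 2 0 * w 2) +
    m 1 * (v 0 1 * w 0 + v 1 1 * w 1 + v 2 1 * w 2) +
    m 2 * (v 0 2 * w 0 + v 1 2 * w 1 + v 2 2 * w 2) + m 3 * w 3 =
    (m 0 * v 0 0 + m 1 * v 0 1 + m 2 * v 0 2) * w 0 +
    (m 0 * v 1 0 + m 1 * v 1 1 + m 2 * v 1 2) * w 1 +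
    (m 0 * v 2 0 + m 1 * v 2 1 + m 2 * v 2 2) * w 2 + m 3 * w 3
  ring

/-- The case without `β`. -/
theorem linExp_gQ_zero (α : Fin 3 → ℂ) (c : ℂ) : LinExp (gQ α 0 c) := by
  refine linExp_four ![![2, 0, 0, 1], ![0, 2, 0, 1], ![0, 0, 2, 1], ![0, 0, 0, 3]] ?_
    ![α 0, α 1, α 2, c] fun w => ?_
  · simp [Matrix.det_succ_row_zero, Fin.sum_univ_succ, Fin.succAbove]
  · rw [eval_gQ, Fin.sum_univ_four]
    simp
    ring

/-- Each `gQ α β c` is good. If `α_i ≠ 0` the shift `x_i → x_i - (β_i/(2 α_i)) x_3` removes `β_i`. Then,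
if all `β_i` are zero, the exponents are `(2,0,0,1), (0,2,0,1), (0,0,2,1), (0,0,0,3)`. If
`β_i ≠ 0` (and `α_i = 0`), take `β_0 x_0 + β_1 x_1 + β_2 x_2 + c x_3` as the new coordinate `x_i`; the
form is then `x_3 (∑_{j ≠ i} α_j x_j² + x_3 x_i)`, with linearly independent exponents. -/
theorem linGood_gQ (α β : Fin 3 → ℂ) (c : ℂ) : LinGood (gQ α β c) := by
  -- the shift
  obtain ⟨s, hs⟩ : ∃ s : Fin 3 → ℂ, ∀ i, α i = 0 ∨ β i + 2 * α i * s i = 0 := by
    refine ⟨fun i => -β i / (2 * α i), fun i => ?_⟩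
    by_cases h : α i = 0
    · exact Or.inl h
    · right
      field_simp
      ring
  have h1 : LinEq (gQ α β c) (gQ α (fun i => β i + 2 * α i * s i)
      (c + (α 0 * s 0 ^ 2 + β 0 * s 0) + (α 1 * s 1 ^ 2 + β 1 * s 1) +
        (α 2 * s 2 ^ 2 + β 2 * s 2))) := by
    refine LinEq.of_matrix !![1, 0, 0, s 0; 0, 1, 0, s 1; 0, 0, 1, s 2; 0, 0, 0, 1] ?_ fun w => ?_
    · simp [Matrix.det_succ_row_zero, Fin.sum_univ_succ, Fin.succAbove]
    · rw [eval_gQ, eval_gQ]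
      simp [Matrix.mulVec, dotProduct, Fin.sum_univ_four]
      left
      ring
  refine LinGood.of_linEq ?_ h1
  obtain ⟨β', hβ'⟩ : ∃ β' : Fin 3 → ℂ, β' = fun i => β i + 2 * α i * s i := ⟨_, rfl⟩
  obtain ⟨c', hc'⟩ : ∃ c', c' = c + (α 0 * s 0 ^ 2 + β 0 * s 0) + (α 1 * s 1 ^ 2 + β 1 * s 1) +
        (α 2 * s 2 ^ 2 + β 2 * s 2) := ⟨_, rfl⟩
  have hs' : ∀ i, α i = 0 ∨ β' i = 0 := fun i => by rw [hβ']; exact hs i
  rw [← hβ', ← hc']
  by_cases h0 : β' 0 = 0
  swap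
  · have hα : α 0 = 0 := (hs' 0).resolve_right h0
    have h2 : LinEq (gQ α β' c') (X 3 * (C (α 1) * X 1 ^ 2 + C (α 2) * X 2 ^ 2 + X 3 * X 0)) := by
      refine LinEq.of_matrix !![1 / β' 0, - β' 1 / β' 0, - β' 2 / β' 0, - c' / β' 0; 0, 1, 0, 0;
        0, 0, 1, 0; 0, 0, 0, 1] ?_ fun w => ?_
      · simp [Matrix.det_succ_row_zero, Fin.sum_univ_succ, Fin.succAbove, h0]
      · rw [eval_gQ]
        simp [Matrix.mulVec, dotProduct, Fin.sum_univ_four, hα]
        left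
        field_simp
        ring
    refine ⟨_, h2, linExp_four ![![0, 2, 0, 1], ![0, 0, 2, 1], ![1, 0, 0, 2], ![0, 0, 0, 1]] ?_
      ![α 1, α 2, 1, 0] fun w => ?_⟩
    · simp [Matrix.det_succ_row_zero, Fin.sum_univ_succ, Fin.succAbove]
    · rw [Fin.sum_univ_four]
      simp
      ring
  by_cases h1' : β' 1 = 0
  swap
  · have hα : α 1 = 0 := (hs' 1).resolve_right h1'
    have h2 : LinEq (gQ α β' c') (X 3 * (C (α 0) * X 0 ^ 2 + C (α 2) * X 2 ^ 2 + X 3 * X 1)) := by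
      refine LinEq.of_matrix !![1, 0, 0, 0; - β' 0 / β' 1, 1 / β' 1, - β' 2 / β' 1, - c' / β' 1;
        0, 0, 1, 0; 0, 0, 0, 1] ?_ fun w => ?_
      · simp [Matrix.det_succ_row_zero, Fin.sum_univ_succ, Fin.succAbove, h1']
      · rw [eval_gQ]
        simp [Matrix.mulVec, dotProduct, Fin.sum_univ_four, hα]
        left
        field_simp
        ring
    refine ⟨_, h2, linExp_four ![![2, 0, 0, 1], ![0, 0, 2, 1], ![0, 1, 0, 2], ![0, 0, 0, 1]] ?_
      ![α 0, α 2, 1, 0] fun w => ?_⟩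
    · simp [Matrix.det_succ_row_zero, Fin.sum_univ_succ, Fin.succAbove]
    · rw [Fin.sum_univ_four]
      simp
      ring
  by_cases h2' : β' 2 = 0
  swap
  · have hα : α 2 = 0 := (hs' 2).resolve_right h2'
    have h2 : LinEq (gQ α β' c') (X 3 * (C (α 0) * X 0 ^ 2 + C (α 1) * X 1 ^ 2 + X 3 * X 2)) := by
      refine LinEq.of_matrix !![1, 0, 0, 0; 0, 1, 0, 0;
        - β' 0 / β' 2, - β' 1 / β' 2, 1 / β' 2, - c' / β' 2; 0, 0, 0, 1] ?_ fun w => ?_
      · simp [Matrix.det_succ_row_zero, Fin.sum_univ_succ, Fin.succAbove, h2']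
      · rw [eval_gQ]
        simp [Matrix.mulVec, dotProduct, Fin.sum_univ_four, hα]
        left
        field_simp
        ring
    refine ⟨_, h2, linExp_four ![![2, 0, 0, 1], ![0, 2, 0, 1], ![0, 0, 1, 2], ![0, 0, 0, 1]] ?_
      ![α 0, α 1, 1, 0] fun w => ?_⟩
    · simp [Matrix.det_succ_row_zero, Fin.sum_univ_succ, Fin.succAbove]
    · rw [Fin.sum_univ_four]
      simp
      ring
  have h3 : β' = 0 := by
    funext i
    fin_cases i
    · exact h0
    · exact h1'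
    · exact h2'
  rw [h3]
  exact ⟨_, LinEq.refl _, linExp_gQ_zero α c'⟩

end CS

end MPb07157
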