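import Pool.Agent.Lib.MP_b07157_agCS.T1
import Pool.Agent.Lib.MP_b07157_agCS.DQ

/-!
# Three independent critical points
-/

noncomputable section

namespace MPb07157

open MvPolynomial

namespace CS

/-- The form in the coordinates of the basis, if all its coefficients with indices `≠ 3` vanish. -/
private theorem D3_expand {T : Fin 4 → Fin 4 → Fin 4 → ℂ} (hT : Sym T)
    (z : ∀ i j k : Fin 4, i ≠ 3 → j ≠ 3 → k ≠ 3 → T i j k = 0) (w : Fin 4 → ℂ) :
    eval w (cub T) = w 3 * (∑ i : Fin 3, ∑ j : Fin 3,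
      (3 * T i.castSucc j.castSucc 3) * (w i.castSucc * w j.castSucc) +
        w 3 * ∑ i, (![3 * T 0 3 3, 3 * T 1 3 3, 3 * T 2 3 3, T 3 3 3] : Fin 4 → ℂ) i * w i) := by
  have s1 : ∀ i j k, T i j k = T j i k := hT.1
  have s2 : ∀ i j k, T i j k = T i k j := hT.2
  have n0 : (0 : Fin 4) ≠ 3 := by decide
  have n1 : (1 : Fin 4) ≠ 3 := by decide
  have n2 : (2 : Fin 4) ≠ 3 := by decide
  have a3 : ∀ i j, T 3 i j = T i j 3 := fun i j => by rw [s1 3 i j, s2 i 3 j]
  have a2 : ∀ i j, T i 3 j = T i j 3 := fun i j => s2 i 3 j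
  have c0 : (Fin.castSucc (0 : Fin 3)) = (0 : Fin 4) := rfl
  have c1 : (Fin.castSucc (1 : Fin 3)) = (1 : Fin 4) := rfl
  have c2 : (Fin.castSucc (2 : Fin 3)) = (2 : Fin 4) := rfl
  rw [eval_cub]
  unfold tri
  simp only [Fin.sum_univ_four, Fin.sum_univ_three, c0, c1, c2, Matrix.cons_val]
  rw [z 0 0 0 n0 n0 n0, z 0 0 1 n0 n0 n1, z 0 0 2 n0 n0 n2, z 0 1 0 n0 n1 n0, z 0 1 1 n0 n1 n1,
    z 0 1 2 n0 n1 n2, z 0 2 0 n0 n2 n0, z 0 2 1 n0 n2 n1, z 0 2 2 n0 n2 n2,
    z 1 0 0 n1 n0 n0, z 1 0 1 n1 n0 n1, z 1 0 2 n1 n0 n2, z 1 1 0 n1 n1 n0, z 1 1 1 n1 n1 n1,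
    z 1 1 2 n1 n1 n2, z 1 2 0 n1 n2 n0, z 1 2 1 n1 n2 n1, z 1 2 2 n1 n2 n2,
    z 2 0 0 n2 n0 n0, z 2 0 1 n2 n0 n1, z 2 0 2 n2 n0 n2, z 2 1 0 n2 n1 n0, z 2 1 1 n2 n1 n1,
    z 2 1 2 n2 n1 n2, z 2 2 0 n2 n2 n0, z 2 2 1 n2 n2 n1, z 2 2 2 n2 n2 n2,
    a3 0 0, a3 0 1, a3 0 2, a3 1 0, a3 1 1, a3 1 2, a3 2 0, a3 2 1, a3 2 2,
    a3 3 0, a3 3 1, a3 3 2, a3 0 3, a3 1 3, a3 2 3,
    a2 0 0, a2 0 1, a2 0 2, a2 1 0, a2 1 1, a2 1 2, a2 2 0, a2 2 1, a2 2 2]
  ring

/-- The value `t(q, q, b_k)` for `q` in the span of `b_0, b_1, b_2`. -/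
private theorem D3_value {t : Fin 4 → Fin 4 → Fin 4 → ℂ} (ht : Sym t) (u v w z : Fin 4 → ℂ)
    (x y r : ℂ) (h1 : tri t u u z = 0) (h2 : tri t v v z = 0) (h3 : tri t w w z = 0)
    (h4 : tri t u w z = 0) (h5 : tri t v w z = 0) :
    tri t (x • u + y • v + r • w) (x • u + y • v + r • w) z = 2 * (x * y) * tri t u v z := by
  have a2 : ∀ a b b' c, tri t a (b + b') c = tri t a b c + tri t a b' c := fun a b b' c => by
    rw [tri_comm₁₂ ht a, tri_add, tri_comm₁₂ ht b, tri_comm₁₂ ht b']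
  have m2 : ∀ (s : ℂ) a b c, tri t a (s • b) c = s * tri t a b c := fun s a b c => by
    rw [tri_comm₁₂ ht a, tri_smul, tri_comm₁₂ ht b]
  simp only [tri_add, tri_smul, a2, m2]
  rw [tri_comm₁₂ ht v u, tri_comm₁₂ ht w u, tri_comm₁₂ ht w v, h1, h2, h3, h4, h5]
  ring

/-- **All critical points in a hyperplane, which contains three linearly independent ones.** Proof.
`b_0, b_1, b_2` are critical, all critical points are in their span, and there are infinitely many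
lines of critical points (`¬ FinSing`). The coefficients `t' i j k = t(b_i, b_j, b_k)` in the
coordinates of `b` vanish if `i = j ≤ 2`. Let `c = t' 0 1 2`. If `c ≠ 0`: a critical point
`p = ∑_{i ≤ 2} x_i b_i` satisfies `t(p, p, b_k) = 0`, that is `2 c x_i x_j = 0` for `{i, j, k} =
{0, 1, 2}`, so `p` is a multiple of one of the `b_i`, and `FinSing` holds with `{b_0, b_1, b_2}`. If
`c = 0`, then `t' i j k = 0` for `i, j, k ≤ 2`, and the form is `x_3` times a quadratic form: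
`exists_gQ`, `linGood_gQ`. -/
theorem linGood_of_three {t : Fin 4 → Fin 4 → Fin 4 → ℂ} (ht : Sym t)
    (b : Module.Basis (Fin 4) ℂ (Fin 4 → ℂ)) (hb : ∀ i, i ≠ 3 → b i ∈ Cr (cub t))
    (hs : ∀ p ∈ Cr (cub t), p ∈ Submodule.span ℂ {b 0, b 1, b 2})
    (hfin : ¬ YG.FinSing (cub t)) : LinGood (cub t) := by
  classical
  have n0 : (0 : Fin 4) ≠ 3 := by decide
  have n1 : (1 : Fin 4) ≠ 3 := by decide
  have n2 : (2 : Fin 4) ≠ 3 := by decide
  have hd : ∀ i, i ≠ 3 → ∀ z, tri t (b i) (b i) z = 0 := fun i hi =>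
    (mem_Cr_cub ht _).1 (hb i hi)
  have hd' : ∀ i, i ≠ 3 → ∀ z, tri t (b i) z (b i) = 0 := fun i hi z => by
    rw [tri_comm₂₃ ht, hd i hi]
  have hd'' : ∀ i, i ≠ 3 → ∀ z, tri t z (b i) (b i) = 0 := fun i hi z => by
    rw [tri_comm₁₂ ht, hd' i hi]
  by_cases hc : tri t (b 0) (b 1) (b 2) = 0
  · -- the form is `x_3` times a quadratic form
    have hT := sym_basis ht (fun i => b i)
    have c1 : tri t (b 0) (b 2) (b 1) = 0 := by rw [tri_comm₂₃ ht, hc]
    have c2 : tri t (b 1) (b 0) (b 2) = 0 := by rw [tri_comm₁₂ ht, hc]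
    have c3 : tri t (b 1) (b 2) (b 0) = 0 := by rw [tri_comm₂₃ ht, c2]
    have c4 : tri t (b 2) (b 0) (b 1) = 0 := by rw [tri_comm₁₂ ht, c1]
    have c5 : tri t (b 2) (b 1) (b 0) = 0 := by rw [tri_comm₁₂ ht, c3]
    have z : ∀ i j k : Fin 4, i ≠ 3 → j ≠ 3 → k ≠ 3 → tri t (b i) (b j) (b k) = 0 := by
      intro i j k hi hj hk
      by_cases hij : i = j
      · subst hij
        exact hd i hi _
      by_cases hik : i = k
      · subst hik
        exact hd' i hi _
      by_cases hjk : j = k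
      · subst hjk
        exact hd'' j hj _
      fin_cases i <;> fin_cases j <;> fin_cases k <;>
        first
        | exact absurd rfl hi
        | exact absurd rfl hj
        | exact absurd rfl hk
        | exact absurd rfl hij
        | exact absurd rfl hik
        | exact absurd rfl hjk
        | exact hc
        | exact c1
        | exact c2
        | exact c3
        | exact c4
        | exact c5
    have hF := D3_expand hT z
    obtain ⟨α, β, c, hα⟩ := exists_gQ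
      (t := fun i j : Fin 3 => 3 * tri t (b i.castSucc) (b j.castSucc) (b 3))
      (fun i j => by
        show 3 * tri t (b i.castSucc) (b j.castSucc) (b 3) =
          3 * tri t (b j.castSucc) (b i.castSucc) (b 3)
        rw [tri_comm₁₂ ht]) _ hF
    exact (linGood_gQ α β c).of_linEq ((linEq_basis b).trans hα)
  · -- finitely many singular points
    refine absurd ⟨{b 0, b 1, b 2}, fun q _ hq => ?_⟩ hfin
    have hq' : q ∈ Cr (cub t) := hq
    have hq2 := (mem_Cr_cub ht _).1 hq'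
    obtain ⟨x, y, r, hxyr⟩ := Submodule.mem_span_triple.1 (hs q hq')
    have e1 := D3_value ht (b 0) (b 1) (b 2) (b 2) x y r (hd 0 n0 _) (hd 1 n1 _) (hd 2 n2 _)
      (hd'' 2 n2 _) (hd'' 2 n2 _)
    have e2 := D3_value ht (b 0) (b 2) (b 1) (b 1) x r y (hd 0 n0 _) (hd 2 n2 _) (hd 1 n1 _)
      (hd'' 1 n1 _) (hd'' 1 n1 _)
    have e3 := D3_value ht (b 1) (b 2) (b 0) (b 0) y r x (hd 1 n1 _) (hd 2 n2 _) (hd 0 n0 _)
      (hd'' 0 n0 _) (hd'' 0 n0 _)
    have g2 : x • b 0 + r • b 2 + y • b 1 = q := by rw [← hxyr]; abel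
    have g3 : y • b 1 + r • b 2 + x • b 0 = q := by rw [← hxyr]; abel
    rw [hxyr, hq2] at e1
    rw [g2, hq2] at e2
    rw [g3, hq2] at e3
    have k2 : tri t (b 0) (b 2) (b 1) ≠ 0 := by
      rw [tri_comm₂₃ ht]
      exact hc
    have k3 : tri t (b 1) (b 2) (b 0) ≠ 0 := by
      rw [tri_comm₂₃ ht, tri_comm₁₂ ht]
      exact hc
    have f1 : x * y = 0 := by
      have := (mul_eq_zero.1 e1.symm).resolve_right hc
      exact (mul_eq_zero.1 this).resolve_left two_ne_zero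
    have f2 : x * r = 0 := by
      have := (mul_eq_zero.1 e2.symm).resolve_right k2
      exact (mul_eq_zero.1 this).resolve_left two_ne_zero
    have f3 : y * r = 0 := by
      have := (mul_eq_zero.1 e3.symm).resolve_right k3
      exact (mul_eq_zero.1 this).resolve_left two_ne_zero
    rcases mul_eq_zero.1 f1 with hx | hy
    · rcases mul_eq_zero.1 f3 with hy | hr
      · refine ⟨b 2, by simp, r, ?_⟩
        rw [← hxyr, hx, hy, zero_smul, zero_smul, zero_add, zero_add]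
      · refine ⟨b 1, by simp, y, ?_⟩
        rw [← hxyr, hx, hr, zero_smul, zero_smul, zero_add, add_zero]
    · rcases mul_eq_zero.1 f2 with hx | hr
      · refine ⟨b 2, by simp, r, ?_⟩
        rw [← hxyr, hx, hy, zero_smul, zero_smul, zero_add, zero_add]
      · refine ⟨b 0, by simp, x, ?_⟩
        rw [← hxyr, hr, hy, zero_smul, zero_smul, add_zero, add_zero]

end CS

end MPb07157
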