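import Pool.Agent.Lib.MP_b07157_agCS.Defs

/-!
# Linearly independent exponents: criteria
-/

noncomputable section

namespace MPb07157

open MvPolynomial

namespace CS

/-- A polynomial with at most `n` monomials, whose exponents are among the rows of a matrix with
nonzero determinant. -/
theorem LinExp.of_matrix {n : ℕ} (E : Matrix (Fin n) (Fin n) ℕ)
    (hE : (E.map (Nat.cast : ℕ → ℂ)).det ≠ 0) (c : Fin n → ℂ) :
    LinExp (∑ a, C (c a) * ∏ i, X i ^ E a i : MvPolynomial (Fin n) ℂ) := by
  classical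
  have hrow : LinearIndependent ℂ (E.map (Nat.cast : ℕ → ℂ)).row :=
    Matrix.linearIndependent_rows_iff_isUnit.2
      ((Matrix.isUnit_iff_isUnit_det _).2 (isUnit_iff_ne_zero.2 hE))
  have hmon : ∀ a : Fin n, (C (c a) * ∏ i, X i ^ E a i : MvPolynomial (Fin n) ℂ)
      = monomial (Finsupp.equivFunOnFinite.symm (E a)) (c a) := by
    intro a
    rw [monomial_eq, Finsupp.prod_fintype]
    · simp
    · intro i
      simp
  have hsub : ∀ v : (∑ a, C (c a) * ∏ i, X i ^ E a i : MvPolynomial (Fin n) ℂ).support,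
      ∃ a : Fin n, (v : Fin n →₀ ℕ) = Finsupp.equivFunOnFinite.symm (E a) := by
    rintro ⟨v, hv⟩
    by_contra hcon
    push Not at hcon
    rw [mem_support_iff] at hv
    refine hv ?_
    rw [coeff_sum]
    refine Finset.sum_eq_zero fun a _ => ?_
    rw [hmon, coeff_monomial, if_neg (fun h => hcon a h.symm)]
  choose a ha using hsub
  have hinj : Function.Injective a := by
    intro v w hvw
    apply Subtype.ext
    rw [ha v, ha w, hvw]
  have := hrow.comp a hinj
  unfold LinExp
  convert this using 1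
  funext v i
  simp only [Function.comp_apply, Matrix.row, Matrix.map_apply]
  rw [ha v]
  rfl

/-- The case of four variables, with the rows `v₀, …, v₃`. To be used as
`linExp_four ![2, 0, 0, 1] ![1, 1, 1, 0] ![0, 3, 0, 0] ![0, 0, 3, 0] (by simp [...]) c (by ...)`. -/
theorem linExp_four {F : MvPolynomial (Fin 4) ℂ} (v : Fin 4 → Fin 4 → ℕ)
    (hv : (Matrix.of fun a i => (v a i : ℂ)).det ≠ 0) (c : Fin 4 → ℂ)
    (hF : ∀ w : Fin 4 → ℂ, eval w F = ∑ a, c a * (w 0 ^ v a 0 * w 1 ^ v a 1 * w 2 ^ v a 2 *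
      w 3 ^ v a 3)) : LinExp F := by
  have h := LinExp.of_matrix (Matrix.of v) (by exact hv) c
  have h1 : F = ∑ a, C (c a) * ∏ i, X i ^ (Matrix.of v) a i := by
    refine MvPolynomial.funext fun w => ?_
    rw [hF, map_sum]
    refine Finset.sum_congr rfl fun a _ => ?_
    simp [Fin.prod_univ_four]
  rw [h1]
  exact h

end CS

end MPb07157
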