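import Pool.Agent.Lib.MP_b07157_agCS.T1
import Pool.Agent.Lib.MP_b07157_agCS.E0

/-!
# Four independent critical points
-/

noncomputable section

namespace MPb07157

open MvPolynomial

namespace CS

/-- **Four linearly independent critical points.** In the coordinates of the basis `b` the
coefficients `t(b_i, b_i, ·)` vanish, so the form is a linear combination of the squarefree monomials
`x_1x_2x_3, x_0x_2x_3, x_0x_1x_3, x_0x_1x_2`, whose exponents are linearly independent
(`linExp_four`, the determinant is `-3`). -/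
theorem linGood_of_basis {t : Fin 4 → Fin 4 → Fin 4 → ℂ} (ht : Sym t)
    (b : Module.Basis (Fin 4) ℂ (Fin 4 → ℂ)) (hb : ∀ i, b i ∈ Cr (cub t)) : LinGood (cub t) := by
  refine ⟨_, linEq_basis b, ?_⟩
  have hs := sym_basis ht b
  have h0 : ∀ i k, tri t (b i) (b i) (b k) = 0 := fun i k => (mem_Cr_cub ht (b i)).1 (hb i) (b k)
  generalize hsdef : (fun i j k => tri t (b i) (b j) (b k)) = s at hs ⊢
  have hz1 : ∀ i k, s i i k = 0 := fun i k => by
    rw [← hsdef]
    exact h0 i k
  have hz2 : ∀ i k, s i k i = 0 := fun i k => by rw [hs.2, hz1]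
  have hz3 : ∀ i k, s k i i = 0 := fun i k => by rw [hs.1, hz2]
  have p : ∀ i j k, s i k j = s i j k ∧ s j i k = s i j k ∧ s j k i = s i j k ∧
      s k i j = s i j k ∧ s k j i = s i j k := by
    intro i j k
    have e1 : s i k j = s i j k := hs.2 i k j
    have e2 : s j i k = s i j k := hs.1 j i k
    have e3 : s j k i = s i j k := by rw [hs.2 j k i, e2]
    have e4 : s k i j = s i j k := by rw [hs.1 k i j, e1]
    have e5 : s k j i = s i j k := by rw [hs.1 k j i, e3]
    exact ⟨e1, e2, e3, e4, e5⟩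
  obtain ⟨a1, a2, a3, a4, a5⟩ := p 0 1 2
  obtain ⟨b1, b2, b3, b4, b5⟩ := p 0 1 3
  obtain ⟨c1, c2, c3, c4, c5⟩ := p 0 2 3
  obtain ⟨d1, d2, d3, d4, d5⟩ := p 1 2 3
  refine linExp_four ![![0, 1, 1, 1], ![1, 0, 1, 1], ![1, 1, 0, 1], ![1, 1, 1, 0]] ?_
    ![6 * s 1 2 3, 6 * s 0 2 3, 6 * s 0 1 3, 6 * s 0 1 2] fun w => ?_
  · simp [Matrix.det_succ_row_zero, Fin.sum_univ_succ, Fin.succAbove]
    norm_num
  · rw [eval_cub, tri]
    simp only [Fin.sum_univ_four, hz1, hz2, hz3, a1, a2, a3, a4, a5, b1, b2, b3, b4, b5,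
      c1, c2, c3, c4, c5, d1, d2, d3, d4, d5, Matrix.cons_val]
    ring

end CS

end MPb07157
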