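import Pool.Agent.Lib.MP_b07157_agCS.D2
import Pool.Agent.Lib.MP_b07157_agCS.D3
import Pool.Agent.Lib.MP_b07157_agCS.D4

/-!
# Infinitely many singular points
-/

noncomputable section

namespace MPb07157

open MvPolynomial

namespace CS

/-- If the critical points span a space of dimension at most one, there are finitely many lines. -/
theorem finSing_of_finrank_le_one {F : MvPolynomial (Fin 4) ℂ}
    (h : Module.finrank ℂ (Submodule.span ℂ (Cr F)) ≤ 1) : YG.FinSing F := by
  obtain ⟨v, hv⟩ := finrank_le_one_iff.1 h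
  refine ⟨{(v : Fin 4 → ℂ)}, fun q _ hs => ?_⟩
  obtain ⟨c, hc⟩ := hv ⟨q, Submodule.subset_span hs⟩
  exact ⟨v, Finset.mem_singleton_self _, c, (congrArg Subtype.val hc).symm⟩

/-- **Infinitely many singular points, at which the Hessian matrix has rank at least two.** By the
dimension of the span `W` of `Cr F`: four: there is a basis of critical points (a linearly independent
subset of `Cr F` spanning `W`, `exists_linearIndependent`), `linGood_of_basis`; three:
`linGood_of_three` (complete a basis of `W` in `Cr F` by a fourth vector); two: `exists_rank_le_one`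
contradicts the hypothesis; at most one: `finSing_of_finrank_le_one`. -/
theorem linGood_of_not_finSing {F : MvPolynomial (Fin 4) ℂ} (hF : F.IsHomogeneous 3)
    (hr : ∀ p, p ≠ 0 → p ∈ Cr F → 2 ≤ (YG.hessAt F p).rank) (hfin : ¬ YG.FinSing F) :
    LinGood F := by
  obtain ⟨t, ht, rfl⟩ := exists_cub hF
  obtain ⟨v, hv, hvs, hvi⟩ := Submodule.exists_fun_fin_finrank_span_eq ℂ (Cr (cub t))
  have hd1 : ¬ Module.finrank ℂ (Submodule.span ℂ (Cr (cub t))) ≤ 1 := fun h =>
    hfin (finSing_of_finrank_le_one h)
  have hd4 : Module.finrank ℂ (Submodule.span ℂ (Cr (cub t))) ≤ 4 := by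
    have := Submodule.finrank_le (Submodule.span ℂ (Cr (cub t)))
    rwa [Module.finrank_fintype_fun_eq_card, Fintype.card_fin] at this
  obtain ⟨d, hd⟩ : ∃ d, d = Module.finrank ℂ (Submodule.span ℂ (Cr (cub t))) := ⟨_, rfl⟩
  rw [← hd] at hd1 hd4
  obtain ⟨w, hw, hws, hwi⟩ : ∃ w : Fin d → Fin 4 → ℂ, (∀ i, w i ∈ Cr (cub t)) ∧
      Submodule.span ℂ (Set.range w) = Submodule.span ℂ (Cr (cub t)) ∧
      LinearIndependent ℂ w := by
    subst hd
    exact ⟨v, hv, hvs, hvi⟩
  have hsp : ∀ p ∈ Cr (cub t), p ∈ Submodule.span ℂ (Set.range w) := fun p hp => by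
    rw [hws]
    exact Submodule.subset_span hp
  have hex : d < 4 → ∀ (k : ℕ) (x : Fin k → Fin 4 → ℂ), k < 4 → ∃ u,
      u ∉ Submodule.span ℂ (Set.range x) := by
    intro _ k x hk
    by_contra hcon
    push Not at hcon
    have h1 : Submodule.span ℂ (Set.range x) = ⊤ := by
      rw [eq_top_iff]
      exact fun u _ => hcon u
    have h2 := finrank_range_le_card (R := ℂ) x
    unfold Set.finrank at h2
    rw [h1, finrank_top, Module.finrank_fintype_fun_eq_card, Fintype.card_fin,
      Fintype.card_fin] at h2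
    omega
  have hcard : Fintype.card (Fin 4) = Module.finrank ℂ (Fin 4 → ℂ) := by
    rw [Module.finrank_fintype_fun_eq_card]
  have hcases : d = 4 ∨ d = 3 ∨ d = 2 := by omega
  rcases hcases with rfl | rfl | rfl
  · -- a basis of critical points
    refine linGood_of_basis ht (basisOfLinearIndependentOfCardEqFinrank hwi hcard) fun i => ?_
    rw [coe_basisOfLinearIndependentOfCardEqFinrank]
    exact hw i
  · -- three critical points
    obtain ⟨u, hu⟩ := hex (by omega) 3 w (by omega)
    have hli : LinearIndependent ℂ (Fin.snoc w u : Fin 4 → Fin 4 → ℂ) :=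
      linearIndependent_finSnoc.2 ⟨hwi, hu⟩
    have hb : ∀ i, basisOfLinearIndependentOfCardEqFinrank hli hcard i =
        (Fin.snoc w u : Fin 4 → Fin 4 → ℂ) i := fun i => by
      rw [coe_basisOfLinearIndependentOfCardEqFinrank]
    refine linGood_of_three ht (basisOfLinearIndependentOfCardEqFinrank hli hcard) (fun i hi => ?_)
      (fun p hp => ?_) hfin
    · rw [hb]
      obtain ⟨j, rfl⟩ : ∃ j : Fin 3, i = j.castSucc := by
        refine ⟨⟨i, ?_⟩, rfl⟩
        have h1 := i.2
        have h2 : (i : ℕ) ≠ 3 := fun h => hi (Fin.ext h)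
        omega
      rw [Fin.snoc_castSucc (α := fun _ => Fin 4 → ℂ)]
      exact hw j
    · refine Submodule.span_mono ?_ (hsp p hp)
      rintro _ ⟨j, rfl⟩
      have h0 := hb 0
      have h1 := hb 1
      have h2 := hb 2
      rw [h0, h1, h2]
      fin_cases j
      · exact Or.inl rfl
      · exact Or.inr (Or.inl rfl)
      · exact Or.inr (Or.inr rfl)
  · -- two critical points
    exfalso
    obtain ⟨u, hu⟩ := hex (by omega) 2 w (by omega)
    have hli : LinearIndependent ℂ (Fin.cons u w : Fin 3 → Fin 4 → ℂ) :=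
      linearIndependent_finCons.2 ⟨hwi, hu⟩
    obtain ⟨u', hu'⟩ := hex (by omega) 3 (Fin.cons u w : Fin 3 → Fin 4 → ℂ) (by omega)
    have hli' : LinearIndependent ℂ (Fin.cons u' (Fin.cons u w : Fin 3 → Fin 4 → ℂ) :
        Fin 4 → Fin 4 → ℂ) := linearIndependent_finCons.2 ⟨hli, hu'⟩
    obtain ⟨p, hp0, hp, hrk⟩ := exists_rank_le_one ht
      (basisOfLinearIndependentOfCardEqFinrank hli' hcard) (fun p hp => by
        refine Submodule.span_mono ?_ (hsp p hp)
        rintro _ ⟨j, rfl⟩
        rw [coe_basisOfLinearIndependentOfCardEqFinrank]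
        fin_cases j
        · exact Or.inl rfl
        · exact Or.inr rfl) hfin
    have := hr p hp0 hp
    omega

end CS

end MPb07157
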