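import Pool.Agent.Lib.MP_b07157_agCS.T1

/-!
# Critical points in a plane
-/

noncomputable section

namespace MPb07157

open MvPolynomial

namespace CS

/-- The zeros of a binary quadratic form lie on finitely many lines. -/
theorem binary_zeros {α β γ : ℂ} (h : ¬ (α = 0 ∧ β = 0 ∧ γ = 0)) :
    ∃ B : Finset (ℂ × ℂ), ∀ x y : ℂ, (x, y) ≠ 0 → α * x ^ 2 + β * (x * y) + γ * y ^ 2 = 0 →
      ∃ b ∈ B, ∃ c : ℂ, x = c * b.1 ∧ y = c * b.2 := by
  classical
  let P : Polynomial ℂ := Polynomial.C α * Polynomial.X ^ 2 + Polynomial.C β * Polynomial.X +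
    Polynomial.C γ
  have hP : P ≠ 0 := by
    intro h0
    apply h
    refine ⟨?_, ?_, ?_⟩
    · have := congrArg (fun p => Polynomial.coeff p 2) h0
      simpa [P] using this
    · have := congrArg (fun p => Polynomial.coeff p 1) h0
      simpa [P] using this
    · have := congrArg (fun p => Polynomial.coeff p 0) h0
      simpa [P] using this
  refine ⟨insert (1, 0) (P.roots.toFinset.image fun r => (r, 1)), fun x y hxy h0 => ?_⟩
  by_cases hy : y = 0
  · exact ⟨(1, 0), Finset.mem_insert_self _ _, x, by rw [mul_one], by rw [hy, mul_zero]⟩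
  · refine ⟨(x / y, 1), Finset.mem_insert_of_mem (Finset.mem_image.2 ⟨x / y, ?_, rfl⟩), y, ?_, ?_⟩
    · rw [Multiset.mem_toFinset, Polynomial.mem_roots hP, Polynomial.IsRoot]
      simp only [P, Polynomial.eval_add, Polynomial.eval_mul, Polynomial.eval_C,
        Polynomial.eval_pow, Polynomial.eval_X]
      have h1 : α * (x / y) ^ 2 + β * (x / y) + γ =
          (α * x ^ 2 + β * (x * y) + γ * y ^ 2) / y ^ 2 := by
        field_simp
      rw [h1, h0, zero_div]
    · field_simp
    · rw [mul_one]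

/-- A binary quadratic form has a nontrivial zero. -/
theorem exists_binary_zero (α β γ : ℂ) :
    ∃ x y : ℂ, (x, y) ≠ (0, 0) ∧ α * x ^ 2 + β * (x * y) + γ * y ^ 2 = 0 := by
  by_cases hα : α = 0
  · exact ⟨1, 0, by simp, by rw [hα]; ring⟩
  · obtain ⟨s, hs⟩ := IsAlgClosed.exists_pow_nat_eq (k := ℂ) (β ^ 2 - 4 * α * γ) (n := 2) (by norm_num)
    refine ⟨(s - β) / (2 * α), 1, by simp, ?_⟩
    field_simp
    linear_combination hs

/-- A singular symmetric `2 × 2` matrix has a kernel. -/
theorem exists_kernel {a b d : ℂ} (h : a * d - b * b = 0) :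
    ∃ x y : ℂ, (x, y) ≠ (0, 0) ∧ a * x + b * y = 0 ∧ b * x + d * y = 0 := by
  by_cases ha : a = 0 ∧ b = 0
  · by_cases hd : d = 0
    · exact ⟨1, 0, by simp, by rw [ha.1]; ring, by rw [ha.2]; ring⟩
    · exact ⟨1, 0, by simp, by rw [ha.1]; ring, by rw [ha.2]; ring⟩
  · refine ⟨b, -a, ?_, by ring, by linear_combination -h⟩
    intro h1
    rw [Prod.mk.injEq, neg_eq_zero] at h1
    exact ha ⟨h1.2, h1.1⟩

/-- The matrix of the Hessian and the trilinear form. -/
theorem hess_mulVec {t : Fin 4 → Fin 4 → Fin 4 → ℂ} (ht : Sym t) (p z : Fin 4 → ℂ) (i : Fin 4) :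
    (YG.hessAt (cub t) p).mulVec z i = 6 * tri t (Pi.single i 1) z p := by
  have h1 : tri t (Pi.single i 1) z p = ∑ j, ∑ k, t i j k * (z j * p k) := by
    unfold tri
    rw [Finset.sum_eq_single i]
    · simp only [Pi.single_eq_same, one_mul]
    · intro l _ hl
      refine Finset.sum_eq_zero fun j' _ => Finset.sum_eq_zero fun k _ => ?_
      rw [Pi.single_eq_of_ne hl]
      ring
    · intro h
      exact absurd (Finset.mem_univ i) h
  rw [h1, Finset.mul_sum]
  unfold Matrix.mulVec dotProduct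
  refine Finset.sum_congr rfl fun j _ => ?_
  show YG.hessAt (cub t) p i j * z j = _
  rw [hessAt_cub ht, mul_assoc, Finset.sum_mul]
  congr 1
  exact Finset.sum_congr rfl fun k _ => by ring

/-- **All critical points in the span of two linearly independent vectors.** Proof. Let `L` be the
span of `b_2, b_3`. For each `z` the binary quadratic form `t(p, p, z)`, `p ∈ L`, vanishes on the
critical points, which lie on infinitely many lines in `L`, so it is zero; hence `t(p, p', z) = 0` for
`p, p' ∈ L` and all `z` (polarization), in particular all `p ∈ L` are critical. In the coordinates of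
`b`, the matrix of `6 t(p, ·, ·)`, `p = x b_2 + y b_3`, has only the block `i, j ≤ 1`; its determinant
is a binary quadratic form in `(x, y)`, so it vanishes for some `(x, y) ≠ 0`
(algebraically closed field), and there the rank is at most one. -/
theorem exists_rank_le_one {t : Fin 4 → Fin 4 → Fin 4 → ℂ} (ht : Sym t)
    (b : Module.Basis (Fin 4) ℂ (Fin 4 → ℂ))
    (hs : ∀ p ∈ Cr (cub t), p ∈ Submodule.span ℂ {b 2, b 3})
    (hfin : ¬ YG.FinSing (cub t)) :
    ∃ p, p ≠ 0 ∧ p ∈ Cr (cub t) ∧ (YG.hessAt (cub t) p).rank ≤ 1 := by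
  classical
  have a1 := tri_add t
  have s1 := tri_smul t
  have c12 := tri_comm₁₂ ht
  have c23 := tri_comm₂₃ ht
  have a2 : ∀ x y y' z, tri t x (y + y') z = tri t x y z + tri t x y' z := fun x y y' z => by
    rw [c12, a1, c12 y, c12 y']
  have s2 : ∀ c x y z, tri t x (c • y) z = c * tri t x y z := fun c x y z => by
    rw [c12, s1, c12 y]
  have a3 : ∀ x y z z', tri t x y (z + z') = tri t x y z + tri t x y z' := fun x y z z' => by
    rw [c23, a2, c23 x z, c23 x z']
  have s3 : ∀ c x y z, tri t x y (c • z) = c * tri t x y z := fun c x y z => by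
    rw [c23, s2, c23 x z]
  -- the binary quadratic forms vanish
  have hexp : ∀ x y z, tri t (x • b 2 + y • b 3) (x • b 2 + y • b 3) z =
      tri t (b 2) (b 2) z * x ^ 2 + (2 * tri t (b 2) (b 3) z) * (x * y) +
        tri t (b 3) (b 3) z * y ^ 2 := by
    intro x y z
    simp only [a1, a2, s1, s2]
    rw [c12 (b 3) (b 2) z]
    ring
  have hz : ∀ z, tri t (b 2) (b 2) z = 0 ∧ 2 * tri t (b 2) (b 3) z = 0 ∧
      tri t (b 3) (b 3) z = 0 := by
    intro z
    by_contra hcon
    obtain ⟨B, hB⟩ := binary_zeros hcon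
    apply hfin
    refine ⟨B.image fun r => r.1 • b 2 + r.2 • b 3, fun q hq hc => ?_⟩
    obtain ⟨x, y, hxy⟩ := Submodule.mem_span_pair.1 (hs q hc)
    have h1 := (mem_Cr_cub ht q).1 hc z
    rw [← hxy, hexp] at h1
    obtain ⟨r, hr, c, h2, h3⟩ := hB x y (fun h => hq (by
      rw [Prod.mk_eq_zero] at h
      rw [← hxy, h.1, h.2, zero_smul, zero_smul, add_zero])) h1
    refine ⟨_, Finset.mem_image.2 ⟨r, hr, rfl⟩, c, ?_⟩
    rw [← hxy, h2, h3, smul_add, smul_smul, smul_smul]
  have h22 : ∀ z, tri t (b 2) (b 2) z = 0 := fun z => (hz z).1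
  have h23 : ∀ z, tri t (b 2) (b 3) z = 0 := fun z =>
    (mul_eq_zero.1 (hz z).2.1).resolve_left two_ne_zero
  have h33 : ∀ z, tri t (b 3) (b 3) z = 0 := fun z => (hz z).2.2
  have h32 : ∀ z, tri t (b 3) (b 2) z = 0 := fun z => by rw [c12, h23]
  -- the pencil
  obtain ⟨x, y, hxy, hdet⟩ := exists_binary_zero
    (tri t (b 0) (b 0) (b 2) * tri t (b 1) (b 1) (b 2) - tri t (b 0) (b 1) (b 2) ^ 2)
    (tri t (b 0) (b 0) (b 2) * tri t (b 1) (b 1) (b 3) + tri t (b 0) (b 0) (b 3) *
      tri t (b 1) (b 1) (b 2) - 2 * (tri t (b 0) (b 1) (b 2) * tri t (b 0) (b 1) (b 3)))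
    (tri t (b 0) (b 0) (b 3) * tri t (b 1) (b 1) (b 3) - tri t (b 0) (b 1) (b 3) ^ 2)
  obtain ⟨p, hp⟩ : ∃ p, p = x • b 2 + y • b 3 := ⟨_, rfl⟩
  have hp2 : ∀ w, tri t (b 2) p w = 0 := fun w => by
    rw [hp, a2, s2, s2, h22, h23, mul_zero, mul_zero, add_zero]
  have hp3 : ∀ w, tri t (b 3) p w = 0 := fun w => by
    rw [hp, a2, s2, s2, h32, h33, mul_zero, mul_zero, add_zero]
  have hli := b.linearIndependent
  rw [Fintype.linearIndependent_iff] at hli
  have hp0 : p ≠ 0 := by
    intro h0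
    have h1 := hli ![0, 0, x, y] (by
      rw [Fin.sum_univ_four]
      show (0 : ℂ) • b 0 + (0 : ℂ) • b 1 + x • b 2 + y • b 3 = 0
      rw [zero_smul, zero_smul, zero_add, zero_add, ← hp, h0])
    apply hxy
    have h2 := h1 2
    have h3 := h1 3
    simp at h2 h3
    rw [h2, h3]
  obtain ⟨u, v, huv, hu1, hu2⟩ := exists_kernel (a := tri t (b 0) (b 0) p)
    (b := tri t (b 0) (b 1) p) (d := tri t (b 1) (b 1) p) (by
      rw [hp]
      simp only [a3, s3]
      linear_combination hdet)
  obtain ⟨q, hq⟩ : ∃ q, q = u • b 0 + v • b 1 := ⟨_, rfl⟩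
  -- three vectors in the kernel
  have hker : ∀ z, (∀ w, tri t w z p = 0) → (YG.hessAt (cub t) p).mulVec z = 0 := by
    intro z h
    funext i
    rw [hess_mulVec ht, h, mul_zero, Pi.zero_apply]
  have hk2 : (YG.hessAt (cub t) p).mulVec (b 2) = 0 := hker _ fun w => by
    rw [c12, c23, hp2]
  have hk3 : (YG.hessAt (cub t) p).mulVec (b 3) = 0 := hker _ fun w => by
    rw [c12, c23, hp3]
  have hkq : (YG.hessAt (cub t) p).mulVec q = 0 := hker _ fun w => by
    have hw := b.sum_repr w
    rw [Fin.sum_univ_four] at hw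
    have e2 : tri t (b 2) q p = 0 := by rw [c23, hp2]
    have e3 : tri t (b 3) q p = 0 := by rw [c23, hp3]
    have e0 : tri t (b 0) q p = 0 := by
      rw [hq, a2, s2, s2]
      linear_combination hu1
    have e1 : tri t (b 1) q p = 0 := by
      rw [hq, a2, s2, s2, c12 (b 1) (b 0)]
      linear_combination hu2
    rw [← hw, a1, a1, a1, s1, s1, s1, s1, e0, e1, e2, e3]
    ring
  refine ⟨p, hp0, (mem_Cr_cub ht p).2 fun z => ?_, ?_⟩
  · rw [hp, hexp, h22, h23, h33]
    ring
  · let f : Fin 3 → LinearMap.ker (YG.hessAt (cub t) p).mulVecLin :=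
      ![⟨b 2, by rw [LinearMap.mem_ker]; exact hk2⟩, ⟨b 3, by rw [LinearMap.mem_ker]; exact hk3⟩,
        ⟨q, by rw [LinearMap.mem_ker]; exact hkq⟩]
    have hf : LinearIndependent ℂ f := by
      rw [Fintype.linearIndependent_iff]
      intro c hc
      rw [Fin.sum_univ_three] at hc
      have h1 := congrArg Subtype.val hc
      have h2 : c 0 • b 2 + c 1 • b 3 + c 2 • q = 0 := h1
      have h3 := hli ![c 2 * u, c 2 * v, c 0, c 1] (by
        rw [Fin.sum_univ_four]
        show (c 2 * u) • b 0 + (c 2 * v) • b 1 + c 0 • b 2 + c 1 • b 3 = 0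
        rw [← h2, hq, smul_add, smul_smul, smul_smul]
        abel)
      have e0 := h3 0
      have e1 := h3 1
      have e2 := h3 2
      have e3 := h3 3
      simp at e0 e1 e2 e3
      intro i
      fin_cases i
      · exact e2
      · exact e3
      · show c 2 = 0
        by_contra hc2
        apply huv
        rw [e0.resolve_left hc2, e1.resolve_left hc2]
    have h1 := hf.fintype_card_le_finrank
    rw [Fintype.card_fin] at h1
    have h2 := LinearMap.finrank_range_add_finrank_ker (YG.hessAt (cub t) p).mulVecLin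
    rw [Module.finrank_fintype_fun_eq_card, Fintype.card_fin] at h2
    unfold Matrix.rank
    omega

end CS

end MPb07157
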