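import Pool.Agent.Lib.MP_b07157_agM.TDefs

/-!
# Cubic forms in four variables: definitions
-/

noncomputable section

namespace MPb07157

open MvPolynomial

namespace CS

variable {n : ℕ}

/-- The exponents of the monomials of `F` are linearly independent. -/
def LinExp (F : MvPolynomial (Fin n) ℂ) : Prop :=
  LinearIndependent ℂ fun (v : F.support) (i : Fin n) => ((v : Fin n →₀ ℕ) i : ℂ)

/-- `G` is `F` in other linear coordinates. -/
def LinEq (F G : MvPolynomial (Fin n) ℂ) : Prop :=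
  ∃ e : (Fin n → ℂ) ≃ₗ[ℂ] (Fin n → ℂ), ∀ w, eval (e w) F = eval w G

/-- In suitable linear coordinates the exponents of the monomials of `F` are linearly independent. -/
def LinGood (F : MvPolynomial (Fin n) ℂ) : Prop := ∃ G, LinEq F G ∧ LinExp G

/-- The critical points. -/
def Cr (F : MvPolynomial (Fin n) ℂ) : Set (Fin n → ℂ) := {p | ∀ i, eval p (pderiv i F) = 0}

/-- The cubic form with the coefficients `t`. -/
def cub (t : Fin n → Fin n → Fin n → ℂ) : MvPolynomial (Fin n) ℂ :=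
  ∑ i, ∑ j, ∑ k, C (t i j k) * (X i * X j * X k)

/-- Symmetric coefficients. -/
def Sym (t : Fin n → Fin n → Fin n → ℂ) : Prop :=
  (∀ i j k, t i j k = t j i k) ∧ ∀ i j k, t i j k = t i k j

/-- The trilinear form with the coefficients `t`. -/
def tri (t : Fin n → Fin n → Fin n → ℂ) (x y z : Fin n → ℂ) : ℂ :=
  ∑ i, ∑ j, ∑ k, t i j k * (x i * y j * z k)

/-- A cubic form with a point of multiplicity two, at which the Hessian matrix has rank one. -/
def gB (q : Fin 3 → ℂ) (c : Fin 4 → ℂ) : MvPolynomial (Fin 4) ℂ :=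
  X 3 * X 0 ^ 2 + X 0 * (C (q 0) * X 1 ^ 2 + C (q 1) * (X 1 * X 2) + C (q 2) * X 2 ^ 2) +
    (C (c 0) * X 1 ^ 3 + C (c 1) * (X 1 ^ 2 * X 2) + C (c 2) * (X 1 * X 2 ^ 2) + C (c 3) * X 2 ^ 3)

theorem LinEq.refl (F : MvPolynomial (Fin n) ℂ) : LinEq F F :=
  ⟨LinearEquiv.refl ℂ _, fun _ => rfl⟩

theorem LinEq.trans {F G H : MvPolynomial (Fin n) ℂ} (h1 : LinEq F G) (h2 : LinEq G H) :
    LinEq F H := by
  obtain ⟨e, he⟩ := h1
  obtain ⟨e', he'⟩ := h2
  exact ⟨e'.trans e, fun w => by rw [LinearEquiv.trans_apply, he, he']⟩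

theorem LinEq.symm {F G : MvPolynomial (Fin n) ℂ} (h : LinEq F G) : LinEq G F := by
  obtain ⟨e, he⟩ := h
  exact ⟨e.symm, fun w => by rw [← he, LinearEquiv.apply_symm_apply]⟩

theorem LinGood.of_linEq {F G : MvPolynomial (Fin n) ℂ} (hG : LinGood G) (h : LinEq F G) :
    LinGood F := by
  obtain ⟨H, h1, h2⟩ := hG
  exact ⟨H, h.trans h1, h2⟩

/-- A change of coordinates given by an invertible matrix. -/
theorem LinEq.of_matrix {F G : MvPolynomial (Fin n) ℂ} (M : Matrix (Fin n) (Fin n) ℂ)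
    (hM : M.det ≠ 0) (h : ∀ w, eval (M.mulVec w) F = eval w G) : LinEq F G := by
  have hu : IsUnit M.det := isUnit_iff_ne_zero.2 hM
  refine ⟨Matrix.toLin'OfInv (Matrix.nonsing_inv_mul _ hu) (Matrix.mul_nonsing_inv _ hu),
    fun w => ?_⟩
  rw [← h]
  rfl

end CS

end MPb07157
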