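import Pool.Agent.Lib.MP_b07157_agCS.N0
import Pool.Agent.Lib.MP_b07157_agCS.N1

/-!
# The conjecture for polynomials with linearly independent exponents
-/

noncomputable section

namespace MPb07157

open MvPolynomial

namespace CS

variable {n : ℕ}

theorem LinGood.smcLoc {F : MvPolynomial (Fin n) ℂ} (hF : F ≠ 0) (h0 : coeff 0 F = 0)
    (h : LinGood F) : SmcLoc F := by
  obtain ⟨G, h1, h2⟩ := h
  refine h1.smcLoc (h2.smcLoc ?_ ?_)
  · rintro rfl
    obtain ⟨e, he⟩ := h1
    refine hF (MvPolynomial.funext fun w => ?_)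
    have h3 := he (e.symm w)
    rw [LinearEquiv.apply_symm_apply] at h3
    rw [h3, map_zero, map_zero]
  · obtain ⟨e, he⟩ := h1
    have h3 := he 0
    rw [map_zero] at h3
    have h4 : ∀ H : MvPolynomial (Fin n) ℂ, eval 0 H = coeff 0 H := fun H => by
      rw [← constantCoeff_eq]
      show eval (fun _ => 0) H = _
      rw [eval_zero']
    rw [h4, h4, h0] at h3
    exact h3.symm

end CS

end MPb07157
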