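import Pool.Agent.Lib.MP_b07157_agYQ.LocC
import Pool.Agent.Lib.MP_b07157_agYM.ChB
import Pool.Agent.Lib.MP_b07157_agQ.WHa
import Pool.Agent.Lib.MP_b07157_agM.CDefs

/-!
# Critical points of corank one of a form: vector fields which kill the form
-/

noncomputable section

namespace MPb07157

open MvPolynomial

namespace CS

open YM YM.ChBaux

/-- Euler's formula in the chart. -/
theorem euler_ph {n : ℕ} {F : MvPolynomial (Fin (n + 1)) ℂ} {d : ℕ}
    (hF : F.IsHomogeneous d) (q : Fin (n + 1) → ℂ) (j₀ : Fin (n + 1)) :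
    ph q j₀ (pderiv j₀ F) +
      ∑ l : Fin n, (X l + C (q (j₀.succAbove l))) * ph q j₀ (pderiv (j₀.succAbove l) F) =
      (d : MvPolynomial (Fin n) ℂ) * ph q j₀ F := by
  have h := hF.sum_X_mul_pderiv
  rw [Fin.sum_univ_succAbove _ j₀, nsmul_eq_mul] at h
  have h1 := congrArg (fun p => ph q j₀ p) h
  have h2 : ph q j₀ (X j₀) = 1 := by
    unfold ph
    rw [aeval_X, Fin.insertNth_apply_same]
  have h3 : ∀ l, ph q j₀ (X (j₀.succAbove l)) = X l + C (q (j₀.succAbove l)) := by
    intro l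
    unfold ph
    rw [aeval_X, Fin.insertNth_apply_succAbove]
  simp only [map_add, map_sum, map_mul, h2, h3, one_mul, map_natCast] at h1
  exact h1

/-- A formal vector field `χ` with `χ(g) = g`, `g` the germ of the section of the form `F` at the
point `q`, gives a polynomial vector field which kills `F` and does not vanish at `q`. -/
theorem qhat_of_chart {n : ℕ} {F : MvPolynomial (Fin (n + 1)) ℂ} {d : ℕ}
    (hF : F.IsHomogeneous d) {q : Fin (n + 1) → ℂ} {j₀ : Fin (n + 1)} (hq : q j₀ = 1)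
    {χ : Fin n → MvPowerSeries (Fin n) ℂ}
    (hχ : ∑ i, χ i * MvPowerSeries.pderiv ℂ i (SI.gch F q j₀ : MvPowerSeries (Fin n) ℂ) =
      (SI.gch F q j₀ : MvPowerSeries (Fin n) ℂ)) : QHat F q := by
  classical
  have hpF : ∀ i, (pderiv i F).IsHomogeneous (d - 1) := fun i => hF.pderiv
  have hder : ∀ l : Fin n, MvPowerSeries.pderiv ℂ l (SI.gch F q j₀ : MvPowerSeries (Fin n) ℂ) =
      ((ph q j₀ (pderiv (j₀.succAbove l) F) : MvPolynomial (Fin n) ℂ) :
        MvPowerSeries (Fin n) ℂ) := by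
    intro l
    rw [MvPowerSeries.pderiv_coe, pderiv_gch]
    rfl
  have hE := congrArg (MvPolynomial.coeToMvPowerSeries.ringHom (σ := Fin n) (R := ℂ))
    (euler_ph hF q j₀)
  rw [map_add, map_sum, map_mul, map_natCast] at hE
  simp only [map_mul, map_add, MvPolynomial.coeToMvPowerSeries.ringHom_apply, MvPolynomial.coe_X,
    MvPolynomial.coe_C] at hE
  obtain ⟨b, hb, hb0⟩ := exists_poly_relation (fun j => ph q j₀ (pderiv j F))
    (j₀.insertNth (α := fun _ => MvPowerSeries (Fin n) ℂ) 1 fun l =>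
      MvPowerSeries.X l + MvPowerSeries.C (q (j₀.succAbove l)) -
        (d : MvPowerSeries (Fin n) ℂ) * χ l) (by
      rw [Fin.sum_univ_succAbove _ j₀, Fin.insertNth_apply_same, one_mul]
      have h1 : ∀ l : Fin n, (j₀.insertNth (α := fun _ => MvPowerSeries (Fin n) ℂ) 1 fun l =>
          MvPowerSeries.X l + MvPowerSeries.C (q (j₀.succAbove l)) -
            (d : MvPowerSeries (Fin n) ℂ) * χ l) (j₀.succAbove l) *
          ((ph q j₀ (pderiv (j₀.succAbove l) F) : MvPolynomial (Fin n) ℂ) :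
            MvPowerSeries (Fin n) ℂ) =
          (MvPowerSeries.X l + MvPowerSeries.C (q (j₀.succAbove l))) *
            ((ph q j₀ (pderiv (j₀.succAbove l) F) : MvPolynomial (Fin n) ℂ) :
              MvPowerSeries (Fin n) ℂ) -
          (d : MvPowerSeries (Fin n) ℂ) * (χ l *
            MvPowerSeries.pderiv ℂ l (SI.gch F q j₀ : MvPowerSeries (Fin n) ℂ)) := by
        intro l
        rw [Fin.insertNth_apply_succAbove, hder]
        ring
      rw [Finset.sum_congr rfl fun l _ => h1 l, Finset.sum_sub_distrib, ← Finset.mul_sum, hχ]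
      have h2 : ((ph q j₀ F : MvPolynomial (Fin n) ℂ) : MvPowerSeries (Fin n) ℂ) =
          (SI.gch F q j₀ : MvPowerSeries (Fin n) ℂ) := rfl
      rw [h2] at hE
      linear_combination hE)
  set M : ℕ := ∑ l, (b l).totalDegree with hM
  have hMb : ∀ l, (b l).totalDegree ≤ M := fun l =>
    Finset.single_le_sum (f := fun l => (b l).totalDegree) (fun _ _ => Nat.zero_le _)
      (Finset.mem_univ l)
  refine ⟨fun j => Hz q j₀ M (b j), ?_, j₀, ?_⟩
  · refine eq_zero_of_ph (q := q) (j₀ := j₀) (N := M + (d - 1))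
      (IsHomogeneous.sum _ _ _ fun j _ => (Hz_homog q j₀ M (b j)).mul (hpF _)) ?_
    rw [map_sum, ← hb]
    refine Finset.sum_congr rfl fun j _ => ?_
    rw [map_mul, ph_Hz _ _ (hMb j)]
  · rw [eval_center hq, ph_Hz _ _ (hMb j₀), hb0, Fin.insertNth_apply_same, map_one]
    exact one_ne_zero

private theorem eval_smul_hom {n : ℕ} {S : MvPolynomial (Fin n) ℂ} {l : ℕ}
    (hS : S.IsHomogeneous l) (c : ℂ) (q : Fin n → ℂ) : eval (c • q) S = c ^ l * eval q S := by
  rw [eval_eq', eval_eq', Finset.mul_sum]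
  refine Finset.sum_congr rfl fun v hv => ?_
  have h1 : ∑ i, v i = l := by
    have := hS (mem_support_iff.1 hv)
    rw [← this]
    simp [Finsupp.weight_apply, Finsupp.sum_fintype]
  simp only [Pi.smul_apply, smul_eq_mul, mul_pow, Finset.prod_mul_distrib]
  rw [Finset.prod_pow_eq_pow_sum, h1]
  ring

/-- The vector fields at the points of a line. -/
theorem qhat_smul {n : ℕ} {f : MvPolynomial (Fin n) ℂ} {d : ℕ} (hh : f.IsHomogeneous d)
    {b : Fin n → ℂ} {c : ℂ} (hc : c ≠ 0) (h : QHat f b) : QHat f (c • b) := by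
  obtain ⟨a, ha, i, hi⟩ := h
  obtain ⟨φ, hφ⟩ : ∃ φ : MvPolynomial (Fin n) ℂ →ₐ[ℂ] MvPolynomial (Fin n) ℂ,
    φ = aeval fun i => C c⁻¹ * X i := ⟨_, rfl⟩
  have e1 : ∀ g, eval (c • b) (φ g) = eval b g := by
    intro g
    have h : (eval (c • b)).comp (φ : MvPolynomial (Fin n) ℂ →+* MvPolynomial (Fin n) ℂ) =
        eval b := by
      apply MvPolynomial.ringHom_ext
      · intro a
        simp [hφ]
      · intro i
        simp only [RingHom.comp_apply, RingHom.coe_coe, hφ, aeval_X, map_mul, eval_C, eval_X,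
          Pi.smul_apply, smul_eq_mul]
        field_simp
    exact congrArg (fun φ => φ g) h
  have e2 : ∀ i, φ (pderiv i f) = C (c⁻¹ ^ (d - 1)) * pderiv i f := by
    intro i
    refine MvPolynomial.funext fun x => ?_
    have h1 : ∀ g, eval x (φ g) = eval (c⁻¹ • x) g := by
      intro g
      have h : (eval x).comp (φ : MvPolynomial (Fin n) ℂ →+* MvPolynomial (Fin n) ℂ) =
          eval (c⁻¹ • x) := by
        apply MvPolynomial.ringHom_ext
        · intro a
          simp [hφ]
        · intro i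
          simp only [RingHom.comp_apply, RingHom.coe_coe, hφ, aeval_X, map_mul, eval_C, eval_X,
            Pi.smul_apply, smul_eq_mul]
      exact congrArg (fun φ => φ g) h
    rw [h1, eval_smul_hom (hh.pderiv (i := i)), map_mul, eval_C]
  refine ⟨fun i => φ (a i), ?_, i, ?_⟩
  · have h1 := congrArg φ ha
    rw [map_sum, map_zero] at h1
    have h2 : C (c⁻¹ ^ (d - 1)) * ∑ i, φ (a i) * pderiv i f = 0 := by
      rw [Finset.mul_sum, ← h1]
      refine Finset.sum_congr rfl fun i _ => ?_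
      rw [map_mul, e2]
      ring
    refine (mul_eq_zero.1 h2).resolve_left fun h0 => ?_
    rw [C_eq_zero] at h0
    exact pow_ne_zero _ (inv_ne_zero hc) h0
  · rw [e1]
    exact hi

private theorem constantCoeff_gchN {n : ℕ} (F : MvPolynomial (Fin (n + 1)) ℂ)
    {q : Fin (n + 1) → ℂ} {j₀ : Fin (n + 1)} (hq : q j₀ = 1) :
    constantCoeff (SI.gch F q j₀) = eval q F := by
  rw [eval_center hq]
  rfl

/-- The Hessian matrix of the germ in the chart. -/
private theorem hess_gchN {n : ℕ} (F : MvPolynomial (Fin (n + 1)) ℂ)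
    {q : Fin (n + 1) → ℂ} {j₀ : Fin (n + 1)} (hq : q j₀ = 1) :
    (Matrix.of fun i j : Fin n => MvPowerSeries.constantCoeff (MvPowerSeries.pderiv ℂ i
      (MvPowerSeries.pderiv ℂ j (SI.gch F q j₀ : MvPowerSeries (Fin n) ℂ))) :
        Matrix (Fin n) (Fin n) ℂ) =
      Matrix.of fun i j : Fin n => YG.hessAt F q (j₀.succAbove i) (j₀.succAbove j) := by
  ext i j
  rw [Matrix.of_apply, Matrix.of_apply, MvPowerSeries.pderiv_coe, MvPowerSeries.pderiv_coe,
    YG.cc_coeG, pderiv_gchN, pderiv_gchN, constantCoeff_gchN _ hq]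
  rfl

/-- The rank of the Hessian matrix in the chart. -/
private theorem rank_gchN {n : ℕ} {F : MvPolynomial (Fin (n + 1)) ℂ} {d : ℕ}
    (hF : F.IsHomogeneous d) {q : Fin (n + 1) → ℂ} {j₀ : Fin (n + 1)} (hq : q j₀ = 1)
    (hs : ∀ j, eval q (pderiv j F) = 0) :
    (YG.hessAt F q).rank ≤
      (Matrix.of fun i j : Fin n => MvPowerSeries.constantCoeff (MvPowerSeries.pderiv ℂ i
        (MvPowerSeries.pderiv ℂ j (SI.gch F q j₀ : MvPowerSeries (Fin n) ℂ))) :
          Matrix (Fin n) (Fin n) ℂ).rank := by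
  rw [hess_gchN F hq]
  refine YG.rank_le_block hq (fun i j => ?_) fun i => ?_
  · unfold YG.hessAt
    rw [Matrix.of_apply, Matrix.of_apply, YG.pd_commG]
  · have h1 := (hF.pderiv (i := i)).sum_X_mul_pderiv
    have h2 := congrArg (eval q) h1
    rw [map_sum, map_nsmul, hs i, smul_zero] at h2
    rw [← h2]
    refine Finset.sum_congr rfl fun j _ => ?_
    unfold YG.hessAt
    rw [Matrix.of_apply, map_mul, eval_X, mul_comm, YG.pd_commG]

/-- **Critical points of corank one.** If the projective hypersurface `F = 0` has finitely many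
singular points and the singular point `q` is of corank at most one, then there is a polynomial
vector field which kills `F` and does not vanish at `q`. -/
theorem qhat_of_corank {t : ℕ} {F : MvPolynomial (Fin (t + 3)) ℂ} {d : ℕ} (hd : 0 < d)
    (hF : F.IsHomogeneous d) (hfin : YG.FinSing F) {q : Fin (t + 3) → ℂ} (hq : q ≠ 0)
    (hs : ∀ j, eval q (pderiv j F) = 0) (hr : t + 1 ≤ (YG.hessAt F q).rank) : QHat F q := by
  obtain ⟨j₀, hj⟩ := Function.ne_iff.1 hq
  rw [Pi.zero_apply] at hj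
  set c : ℂ := (q j₀)⁻¹ with hc
  have hc0 : c ≠ 0 := inv_ne_zero hj
  have hq1 : (c • q) j₀ = 1 := by
    rw [Pi.smul_apply, smul_eq_mul, hc, inv_mul_cancel₀ hj]
  have hs' : ∀ j, eval (c • q) (pderiv j F) = 0 := by
    intro j
    rw [eval_smul_hom (hF.pderiv (i := j)), hs j, mul_zero]
  have hFq : eval (c • q) F = 0 := by
    have h1 := congrArg (eval (c • q)) hF.sum_X_mul_pderiv
    rw [map_sum, map_nsmul, Finset.sum_eq_zero (fun j _ => by
      rw [map_mul, hs' j, mul_zero])] at h1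
    rw [nsmul_eq_mul] at h1
    exact (mul_eq_zero.1 h1.symm).resolve_left (by exact_mod_cast hd.ne')
  have hhess : (YG.hessAt F q).rank ≤ (YG.hessAt F (c • q)).rank := by
    have h1 : YG.hessAt F (c • q) = c ^ (d - 1 - 1) • YG.hessAt F q := by
      ext i j
      unfold YG.hessAt
      rw [Matrix.smul_apply, Matrix.of_apply, Matrix.of_apply,
        eval_smul_hom ((hF.pderiv (i := j)).pderiv (i := i)), smul_eq_mul]
    rw [h1, Matrix.rank_smul_of_mem_nonZeroDivisors _
      (mem_nonZeroDivisors_of_ne_zero (pow_ne_zero _ hc0))]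
  have h0 : MvPowerSeries.constantCoeff
      (SI.gch F (c • q) j₀ : MvPowerSeries (Fin (t + 2)) ℂ) = 0 := by
    rw [YG.cc_coeG, constantCoeff_gchN _ hq1, hFq]
  have h1 : ∀ i, MvPowerSeries.constantCoeff (MvPowerSeries.pderiv ℂ i
      (SI.gch F (c • q) j₀ : MvPowerSeries (Fin (t + 2)) ℂ)) = 0 := by
    intro i
    rw [MvPowerSeries.pderiv_coe, YG.cc_coeG, pderiv_gchN, constantCoeff_gchN _ hq1]
    exact hs' _
  have hrank := rank_gchN hF hq1 hs'
  have hiso := isoSing_gchN hF hfin (c • q) j₀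
  obtain ⟨e, M, κ, hM, hκ, he, -⟩ := exists_normal h0 h1 ((hr.trans hhess).trans hrank) hiso
  obtain ⟨χ, hχ, -⟩ := exists_euler e hM hκ he
  obtain ⟨a, ha, i, hi⟩ := qhat_of_chart hF hq1 hχ
  have h5 := qhat_smul hF (inv_ne_zero hc0) ⟨a, ha, i, hi⟩
  rwa [smul_smul, inv_mul_cancel₀ hc0, one_smul] at h5

/-- **Forms with finitely many singular points, all of corank at most one**: `IsoLines`. -/
theorem isoLines_of_corank {t : ℕ} {F : MvPolynomial (Fin (t + 3)) ℂ} {d : ℕ} (hd : 0 < d)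
    (hF : F.IsHomogeneous d) (hfin : YG.FinSing F)
    (hr : ∀ q : Fin (t + 3) → ℂ, q ≠ 0 → (∀ j, eval q (pderiv j F) = 0) →
      t + 1 ≤ (YG.hessAt F q).rank) : IsoLines F := by
  obtain ⟨P, hP⟩ := hfin
  exact ⟨P, fun p hp hs => ⟨qhat_of_corank hd hF ⟨P, hP⟩ hp hs (hr p hp hs), hP p hp hs⟩⟩

end CS

end MPb07157
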