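import Pool.Agent.Lib.MP_b07157_agCS.A1
import Pool.Agent.Lib.MP_b07157_agCS.B4
import Pool.Agent.Lib.MP_b07157_agCS.D1
import Pool.Agent.Lib.MP_b07157_agCS.N2
import Pool.Agent.Lib.MP_b07157_agCS.QH
import Pool.Agent.Lib.MP_b07157_agSG.Final

/-!
# The strong monodromy conjecture for cubic forms in four variables
-/

noncomputable section

namespace MPb07157

open MvPolynomial

open CS in
/-- **The strong monodromy conjecture, local version**, for all cubic forms in four variables. -/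
theorem SmcLoc.of_cubic {F : MvPolynomial (Fin 4) ℂ} (hF : F ≠ 0) (hh : F.IsHomogeneous 3) :
    SmcLoc F := by
  have h0 : coeff 0 F = 0 := hh.coeff_eq_zero (by simp)
  by_cases hA : ∃ p : Fin 4 → ℂ, p ≠ 0 ∧ YG.hessAt F p = 0
  · obtain ⟨p, hp, h⟩ := hA
    exact smcLoc_of_hess_eq_zero hh hF hp h
  push Not at hA
  by_cases hB : ∃ p : Fin 4 → ℂ, p ≠ 0 ∧ p ∈ Cr F ∧ (YG.hessAt F p).rank = 1
  · obtain ⟨p, hp, hc, hr⟩ := hB
    exact (linGood_of_rank_one hh hp hc hr).smcLoc hF h0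
  have hr : ∀ p, p ≠ 0 → p ∈ Cr F → 2 ≤ (YG.hessAt F p).rank := by
    intro p hp hc
    have h1 : 1 ≤ (YG.hessAt F p).rank := SE3.one_le_rank (hA p hp)
    have h2 : (YG.hessAt F p).rank ≠ 1 := fun h => hB ⟨p, hp, hc, h⟩
    omega
  by_cases hfin : YG.FinSing F
  · refine SmcLoc.of_coneF hF (by norm_num) hh (T := ∅) Set.finite_empty
      (fun W hW => absurd hW (Set.notMem_empty _)) (fun p hp _ hc => Or.inr (Or.inr ?_))
      (Or.inr (Or.inr ?_))
    · have := hr p hp hc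
      omega
    · obtain ⟨B, hB'⟩ := hfin
      exact ⟨B, fun p hp hc => ⟨qhat_of_corank (t := 1) (by norm_num) hh ⟨B, hB'⟩ hp hc (hr p hp hc),
        hB' p hp hc⟩⟩
  · exact (linGood_of_not_finSing hh hr hfin).smcLoc hF h0

end MPb07157
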