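import Pool.Agent.Lib.MP_b07157_agCS.Defs
import Pool.Agent.Lib.MP_b07157_agE.EMain
import Pool.Agent.Lib.MP_b07157_agS.SMain

/-!
# Polynomials with linearly independent exponents
-/

noncomputable section

namespace MPb07157

open MvPolynomial

namespace CS

variable {n : ℕ}

private theorem N0_nondeg {F : MvPolynomial (Fin n) ℂ} (hF : F ≠ 0) (h : LinExp F)
    (w : Fin n → ℕ) : IsNondeg (initialPart F w) := by
  obtain ⟨S, hS1, hS2⟩ : ∃ S : Finset (Fin n →₀ ℕ),
      initialPart F w = ∑ v ∈ S, monomial v (coeff v F) ∧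
      ∀ v, v ∈ S ↔ v ∈ F.support ∧ ∀ u ∈ F.support, ∑ j, w j * v j ≤ ∑ j, w j * u j :=
    ⟨_, rfl, fun v => Finset.mem_filter⟩
  classical
  intro u hu _
  by_contra hcon
  push Not at hcon
  have hsum : ∀ j, ∑ v ∈ S, (v j : ℂ) * eval u (monomial v (coeff v F)) = 0 := by
    intro j
    have h1 : eval u (X j * pderiv j (initialPart F w)) = 0 := by
      rw [map_mul, hcon j, mul_zero]
    rw [hS1, map_sum, Finset.mul_sum, map_sum] at h1
    refine Eq.trans (Finset.sum_congr rfl fun v _ => ?_) h1
    rw [X_mul_pderiv_monomial, map_nsmul, nsmul_eq_mul]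
  have hind := Fintype.linearIndependent_iff.1 h
    (fun v => if (v : Fin n →₀ ℕ) ∈ S then eval u (monomial v.1 (coeff v.1 F)) else 0) (by
      funext j
      rw [Finset.sum_apply]
      simp only [Pi.smul_apply, smul_eq_mul, Pi.zero_apply]
      refine Eq.trans ?_ (hsum j)
      rw [Finset.sum_coe_sort F.support (fun v : Fin n →₀ ℕ =>
        (if v ∈ S then eval u (monomial v (coeff v F)) else 0) * (v j : ℂ))]
      symm
      refine Eq.trans (Finset.sum_congr rfl fun v hv => ?_)
        (Finset.sum_subset (fun v hv => ((hS2 v).1 hv).1) fun v _ hv => ?_)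
      · rw [if_pos hv]
        ring
      · rw [if_neg hv, zero_mul])
  have hne : F.support.Nonempty := support_nonempty.2 hF
  obtain ⟨v, hv, hmin⟩ := Finset.exists_min_image F.support (fun v => ∑ j, w j * v j) hne
  have hvS : v ∈ S := (hS2 v).2 ⟨hv, hmin⟩
  have h2 := hind ⟨v, hv⟩
  simp only [if_pos hvS] at h2
  rw [eval_monomial] at h2
  rcases mul_eq_zero.1 h2 with h3 | h3
  · exact (mem_support_iff.1 hv) h3
  · rw [Finsupp.prod] at h3
    obtain ⟨i, _, hi⟩ := Finset.prod_eq_zero_iff.1 h3
    exact hu i (pow_eq_zero_iff (fun h0 => by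
      rw [h0, pow_zero] at hi
      exact one_ne_zero hi) |>.1 hi)

/-- **Linearly independent exponents.** Proof: `MPb07157.eval_eq_zero_of_form` (agE/EMain) with the
hypothesis `∀ w, (∀ j, 0 < w j) → IsNondeg (initialPart F w)`: let `u` be a point of the torus with
`u_j ∂_j G (u) = 0` for all `j`, `G = initialPart F w`; then `∑_v c_v u^v v_j = 0` for all `j`
(sum over the support of `G`, a nonempty subset of the support of `F`), so all `c_v u^v = 0` by the
linear independence, a contradiction. -/
theorem LinExp.smcLoc {F : MvPolynomial (Fin n) ℂ} (hF : F ≠ 0) (h0 : coeff 0 F = 0)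
    (h : LinExp F) : SmcLoc F := fun s₀ _ hp b hb =>
  eval_eq_zero_of_form hF h0 (fun w _ => N0_nondeg hF h w) s₀ hp b hb

end CS

end MPb07157
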